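import Pool.Agent.R993.GS.Gen

/-! # Additivity of the squeezing measure for general symplectic forms -/

namespace Pool.Agent.R993.GS

open Matrix Finset

variable {α β : Type*} [Fintype α] [DecidableEq α] [Fintype β] [DecidableEq β]

/-- block diagonal matrix -/
def bd (A : Matrix α α ℝ) (B : Matrix β β ℝ) : Matrix (α ⊕ β) (α ⊕ β) ℝ :=
  Matrix.fromBlocks A 0 0 B

lemma bd_transpose (A : Matrix α α ℝ) (B : Matrix β β ℝ) : (bd A B)ᵀ = bd Aᵀ Bᵀ := by
  unfold bd; rw [Matrix.fromBlocks_transpose]; simp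

lemma bd_mul (A A' : Matrix α α ℝ) (B B' : Matrix β β ℝ) :
    bd A B * bd A' B' = bd (A * A') (B * B') := by
  unfold bd; rw [Matrix.fromBlocks_multiply]; simp

lemma bd_one : bd (1 : Matrix α α ℝ) (1 : Matrix β β ℝ) = 1 := Matrix.fromBlocks_one

lemma bd_add (A A' : Matrix α α ℝ) (B B' : Matrix β β ℝ) :
    bd A B + bd A' B' = bd (A + A') (B + B') := by
  unfold bd; rw [Matrix.fromBlocks_add]; simp

lemma bd_neg (A : Matrix α α ℝ) (B : Matrix β β ℝ) : -bd A B = bd (-A) (-B) := by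
  unfold bd; rw [Matrix.fromBlocks_neg]; simp

lemma bd_sub (A A' : Matrix α α ℝ) (B B' : Matrix β β ℝ) :
    bd A B - bd A' B' = bd (A - A') (B - B') := by
  rw [sub_eq_add_neg, bd_neg, bd_add, ← sub_eq_add_neg, ← sub_eq_add_neg]

lemma bd_smul (c : ℝ) (A : Matrix α α ℝ) (B : Matrix β β ℝ) : c • bd A B = bd (c • A) (c • B) := by
  unfold bd; rw [Matrix.fromBlocks_smul]; simp

lemma bd_diag (d : α → ℝ) (d' : β → ℝ) :
    bd (Matrix.diagonal d) (Matrix.diagonal d') = Matrix.diagonal (Sum.elim d d') := by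
  unfold bd; rw [Matrix.fromBlocks_diagonal]

lemma bd_psd {A : Matrix α α ℝ} {B : Matrix β β ℝ} (hA : A.PosSemidef) (hB : B.PosSemidef) :
    (bd A B).PosSemidef := by
  rw [psd_iff] at *
  refine ⟨by rw [bd_transpose, hA.1, hB.1], fun x => ?_⟩
  have e : x ⬝ᵥ (bd A B *ᵥ x) = (x ∘ Sum.inl) ⬝ᵥ (A *ᵥ (x ∘ Sum.inl))
      + (x ∘ Sum.inr) ⬝ᵥ (B *ᵥ (x ∘ Sum.inr)) := by
    unfold bd
    rw [Matrix.fromBlocks_mulVec]
    simp [dotProduct, Fintype.sum_sum_type]
  rw [e]
  exact add_nonneg (hA.2 _) (hB.2 _)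

lemma cay_bd {A : Matrix α α ℝ} {B : Matrix β β ℝ} (hA : A.PosSemidef) (hB : B.PosSemidef) :
    cay (bd A B) = bd (cay A) (cay B) := by
  have h : (bd A B + 1)⁻¹ = bd (A + 1)⁻¹ (B + 1)⁻¹ := by
    apply Matrix.inv_eq_right_inv
    rw [← bd_one, bd_add, bd_mul, mul_nonsing (add_one_pd hA), mul_nonsing (add_one_pd hB)]
  unfold cay
  rw [h, ← bd_one, bd_smul, bd_sub]

lemma block_psd {M : Matrix (α ⊕ β) (α ⊕ β) ℝ} (h : M.PosSemidef) :
    M.toBlocks₁₁.PosSemidef ∧ M.toBlocks₂₂.PosSemidef :=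
  ⟨h.submatrix Sum.inl, h.submatrix Sum.inr⟩

lemma block_pd {M : Matrix (α ⊕ β) (α ⊕ β) ℝ} (h : M.PosDef) :
    M.toBlocks₁₁.PosDef ∧ M.toBlocks₂₂.PosDef :=
  ⟨h.submatrix Sum.inl_injective, h.submatrix Sum.inr_injective⟩

lemma Phi_bd {A : Matrix α α ℝ} {B : Matrix β β ℝ} (hA : A.IsHermitian) (hB : B.IsHermitian)
    (h : (bd A B).IsHermitian) : Phi (bd A B) h = Phi A hA + Phi B hB := by
  obtain ⟨U, hU, hAd⟩ := exists_diag hA
  obtain ⟨V, hV, hBd⟩ := exists_diag hB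
  have h1 : (bd U V)ᵀ * bd U V = 1 := by rw [bd_transpose, bd_mul, hU, hV, bd_one]
  have h2 : bd A B = bd U V * Matrix.diagonal (Sum.elim hA.eigenvalues hB.eigenvalues) *
      (bd U V)ᵀ := by
    rw [← bd_diag, bd_transpose, bd_mul, bd_mul, ← hAd, ← hBd]
  unfold Phi
  rw [eig_sum h h1 h2 phi, Fintype.sum_sum_type]
  simp only [Sum.elim_inl, Sum.elim_inr]
  ring

/-- the pinching inequality -/
lemma Phi_pinch {H : Matrix (α ⊕ β) (α ⊕ β) ℝ} (hH : H.IsHermitian) (h1 : (1 - H).PosDef)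
    (h2 : (1 + H).PosDef) (hA : H.toBlocks₁₁.IsHermitian) (hB : H.toBlocks₂₂.IsHermitian) :
    Phi H.toBlocks₁₁ hA + Phi H.toBlocks₂₂ hB ≤ Phi H hH := by
  obtain ⟨U, hU, hAd⟩ := exists_diag hA
  obtain ⟨V, hV, hBd⟩ := exists_diag hB
  obtain ⟨W, hW, hHd⟩ := exists_diag hH
  have h3 : (bd U V)ᵀ * bd U V = 1 := by rw [bd_transpose, bd_mul, hU, hV, bd_one]
  have hp := peierls hW h3 hHd convex_phi (eig_mem hH h1 h2)
  have hblock : (bd U V)ᵀ * H * bd U V = Matrix.fromBlocks (Uᵀ * H.toBlocks₁₁ * U)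
      (Uᵀ * H.toBlocks₁₂ * V) (Vᵀ * H.toBlocks₂₁ * U) (Vᵀ * H.toBlocks₂₂ * V) := by
    conv_lhs => rw [← Matrix.fromBlocks_toBlocks H]
    rw [bd_transpose]
    unfold bd
    rw [Matrix.fromBlocks_multiply, Matrix.fromBlocks_multiply]
    simp
  rw [hblock, Fintype.sum_sum_type] at hp
  simp only [Matrix.fromBlocks_apply₁₁, Matrix.fromBlocks_apply₂₂] at hp
  have eA : Uᵀ * H.toBlocks₁₁ * U = Matrix.diagonal hA.eigenvalues := by
    conv_lhs => rw [hAd]
    calc Uᵀ * (U * Matrix.diagonal hA.eigenvalues * Uᵀ) * U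
        = (Uᵀ * U) * Matrix.diagonal hA.eigenvalues * (Uᵀ * U) := by simp only [mul_assoc]
      _ = _ := by rw [hU, one_mul, mul_one]
  have eB : Vᵀ * H.toBlocks₂₂ * V = Matrix.diagonal hB.eigenvalues := by
    conv_lhs => rw [hBd]
    calc Vᵀ * (V * Matrix.diagonal hB.eigenvalues * Vᵀ) * V
        = (Vᵀ * V) * Matrix.diagonal hB.eigenvalues * (Vᵀ * V) := by simp only [mul_assoc]
      _ = _ := by rw [hV, one_mul, mul_one]
  rw [eA, eB] at hp
  simp only [Matrix.diagonal_apply_eq] at hp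
  unfold Phi
  linarith

theorem gen_add {JA γA : Matrix α α ℝ} {JB γB : Matrix β β ℝ} {mA mB : ℕ}
    (hA1 : JAᵀ = -JA) (hA2 : JA * JA = -1) (hB1 : JBᵀ = -JB) (hB2 : JB * JB = -1)
    (hmA : Fintype.card α = 2 * mA) (hmB : Fintype.card β = 2 * mB)
    (hγA : RC JA γA) (hγB : RC JB γB) :
    sInf (feas (mA + mB) (bd JA JB) (bd γA γB)) = sInf (feas mA JA γA) + sInf (feas mB JB γB) := by
  have hJ1 : (bd JA JB)ᵀ = -bd JA JB := by rw [bd_transpose, hA1, hB1, bd_neg]
  have hJ2 : bd JA JB * bd JA JB = -1 := by rw [bd_mul, hA2, hB2, ← bd_neg, bd_one]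
  have hm : Fintype.card (α ⊕ β) = 2 * (mA + mB) := by
    rw [Fintype.card_sum, hmA, hmB]; ring
  have pA := (hγA.pd hA1 hA2).posSemidef
  have pB := (hγB.pd hB1 hB2).posSemidef
  have neA := hγA.feas_nonempty hA1 hA2 hmA
  have neB := hγB.feas_nonempty hB1 hB2 hmB
  have bdA := feas_bdd (γ := γA) hA1 hA2 hmA
  have bdB := feas_bdd (γ := γB) hB1 hB2 hmB
  have hsum : ∀ x ∈ feas mA JA γA, ∀ y ∈ feas mB JB γB,
      x + y ∈ feas (mA + mB) (bd JA JB) (bd γA γB) := by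
    intro x hx y hy
    obtain ⟨HA, hHA, leA, antiA, _, rfl, _⟩ := H_of_feas hA1 hA2 hmA hx
    obtain ⟨HB, hHB, leB, antiB, _, rfl, _⟩ := H_of_feas hB1 hB2 hmB hy
    have hs : (bd HA HB)ᵀ = bd HA HB := by rw [bd_transpose, hHA, hHB]
    have := feas_of_H (m := mA + mB) (γ := bd γA γB) hJ1 hJ2 hm (bd_psd pA pB) hs
      (by rw [cay_bd pA pB, bd_sub]; exact bd_psd leA leB)
      (by rw [bd_mul, bd_mul, antiA, antiB, bd_neg])
    rwa [Phi_bd (symm_iff.2 hHA) (symm_iff.2 hHB)] at this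
  apply le_antisymm
  · -- subadditivity
    obtain ⟨x0, hx0⟩ := neA
    obtain ⟨y0, hy0⟩ := neB
    have hbd := feas_bdd (γ := bd γA γB) hJ1 hJ2 hm
    have h1 : ∀ y ∈ feas mB JB γB, sInf (feas (mA + mB) (bd JA JB) (bd γA γB)) - y
        ≤ sInf (feas mA JA γA) := by
      intro y hy
      apply le_csInf ⟨x0, hx0⟩
      intro x hx
      have := csInf_le hbd (hsum x hx y hy)
      linarith
    have h2 : sInf (feas (mA + mB) (bd JA JB) (bd γA γB)) - sInf (feas mA JA γA)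
        ≤ sInf (feas mB JB γB) := by
      apply le_csInf ⟨y0, hy0⟩
      intro y hy
      have := h1 y hy
      linarith
    linarith
  · -- superadditivity
    apply le_csInf
    · obtain ⟨x0, hx0⟩ := neA
      obtain ⟨y0, hy0⟩ := neB
      exact ⟨_, hsum x0 hx0 y0 hy0⟩
    · intro z hz
      obtain ⟨H, hHs, hle, hanti, h1, rfl, _⟩ := H_of_feas hJ1 hJ2 hm hz
      have h2 := one_add_pd hJ1 hJ2 h1 hanti
      have hblk := Matrix.fromBlocks_toBlocks H
      have hsA : (H.toBlocks₁₁)ᵀ = H.toBlocks₁₁ := by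
        have := congrArg Matrix.toBlocks₁₁ hHs
        rw [← hblk, Matrix.fromBlocks_transpose, Matrix.toBlocks_fromBlocks₁₁] at this
        simpa using this
      have hsB : (H.toBlocks₂₂)ᵀ = H.toBlocks₂₂ := by
        have := congrArg Matrix.toBlocks₂₂ hHs
        rw [← hblk, Matrix.fromBlocks_transpose, Matrix.toBlocks_fromBlocks₂₂] at this
        simpa using this
      rw [cay_bd pA pB] at hle
      have hl := block_psd hle
      have elA : (bd (cay γA) (cay γB) - H).toBlocks₁₁ = cay γA - H.toBlocks₁₁ := by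
        ext i j
        simp [bd, Matrix.toBlocks₁₁]
      have elB : (bd (cay γA) (cay γB) - H).toBlocks₂₂ = cay γB - H.toBlocks₂₂ := by
        ext i j
        simp [bd, Matrix.toBlocks₂₂]
      rw [elA, elB] at hl
      have hanti' : bd JA JB * Matrix.fromBlocks H.toBlocks₁₁ H.toBlocks₁₂ H.toBlocks₂₁ H.toBlocks₂₂
          = -(Matrix.fromBlocks H.toBlocks₁₁ H.toBlocks₁₂ H.toBlocks₂₁ H.toBlocks₂₂ * bd JA JB) := by
        rw [hblk]; exact hanti
      unfold bd at hanti'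
      rw [Matrix.fromBlocks_multiply, Matrix.fromBlocks_multiply, Matrix.fromBlocks_neg,
        Matrix.fromBlocks_inj] at hanti'
      obtain ⟨aA, _, _, aB⟩ := hanti'
      have antiA : JA * H.toBlocks₁₁ = -(H.toBlocks₁₁ * JA) := by simpa using aA
      have antiB : JB * H.toBlocks₂₂ = -(H.toBlocks₂₂ * JB) := by simpa using aB
      have fA := feas_of_H hA1 hA2 hmA pA hsA hl.1 antiA
      have fB := feas_of_H hB1 hB2 hmB pB hsB hl.2 antiB
      have g1 := csInf_le bdA fA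
      have g2 := csInf_le bdB fB
      have g3 := Phi_pinch (symm_iff.2 hHs) h1 h2 (symm_iff.2 hsA) (symm_iff.2 hsB)
      linarith

/-! ### reindexing -/

variable {N N' : Type*} [Fintype N] [DecidableEq N] [Fintype N'] [DecidableEq N']

lemma re_one (e : N ≃ N') : (1 : Matrix N N ℝ).submatrix e.symm e.symm = 1 := by
  ext i j
  simp [Matrix.one_apply]

lemma re_neg (e : N ≃ N') (M : Matrix N N ℝ) :
    (-M).submatrix e.symm e.symm = -(M.submatrix e.symm e.symm) := by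
  ext i j; simp

lemma re_add (e : N ≃ N') (M M' : Matrix N N ℝ) :
    (M + M').submatrix e.symm e.symm = M.submatrix e.symm e.symm + M'.submatrix e.symm e.symm := by
  ext i j; simp

lemma cay_reindex (e : N ≃ N') (P : Matrix N N ℝ) :
    cay (Matrix.reindex e e P) = Matrix.reindex e e (cay P) := by
  unfold cay
  simp only [Matrix.reindex_apply]
  have h1 : P.submatrix e.symm e.symm + 1 = (P + 1).submatrix e.symm e.symm := by
    rw [re_add, re_one]
  rw [h1, Matrix.inv_submatrix_equiv]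
  ext i j
  simp [Matrix.one_apply]

lemma Phi_reindex (e : N ≃ N') {H : Matrix N N ℝ} (hH : H.IsHermitian)
    (hH' : (Matrix.reindex e e H).IsHermitian) : Phi (Matrix.reindex e e H) hH' = Phi H hH := by
  have h1 := hH'.roots_charpoly_eq_eigenvalues
  rw [Matrix.charpoly_reindex, hH.roots_charpoly_eq_eigenvalues] at h1
  have h3 := congrArg (fun s => (Multiset.map phi s).sum) h1
  simp only [Multiset.map_map] at h3
  unfold Phi
  congr 1
  exact h3.symm

lemma re_hyp (e : N ≃ N') {J : Matrix N N ℝ} (hJ1 : Jᵀ = -J) (hJ2 : J * J = -1) :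
    (Matrix.reindex e e J)ᵀ = -(Matrix.reindex e e J) ∧
      Matrix.reindex e e J * Matrix.reindex e e J = -1 := by
  simp only [Matrix.reindex_apply]
  constructor
  · rw [Matrix.transpose_submatrix, hJ1, re_neg]
  · rw [Matrix.submatrix_mul_equiv, hJ2, re_neg, re_one]

lemma feas_reindex_sub (e : N ≃ N') {J γ : Matrix N N ℝ} {m : ℕ} (hJ1 : Jᵀ = -J)
    (hJ2 : J * J = -1) (hm : Fintype.card N = 2 * m) :
    feas m J γ ⊆ feas m (Matrix.reindex e e J) (Matrix.reindex e e γ) := by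
  intro x hx
  obtain ⟨H, hHs, hle, hanti, h1, rfl, hγ⟩ := H_of_feas hJ1 hJ2 hm hx
  obtain ⟨hJ1', hJ2'⟩ := re_hyp e hJ1 hJ2
  have hm' : Fintype.card N' = 2 * m := by rw [← Fintype.card_congr e, hm]
  have hHs' : (Matrix.reindex e e H)ᵀ = Matrix.reindex e e H := by
    simp only [Matrix.reindex_apply]
    rw [Matrix.transpose_submatrix, hHs]
  have h := feas_of_H (m := m) (J := Matrix.reindex e e J) (γ := Matrix.reindex e e γ)
    hJ1' hJ2' hm' (hγ.submatrix _) hHs' (by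
      rw [cay_reindex]
      exact hle.submatrix e.symm) (by
      simp only [Matrix.reindex_apply]
      rw [Matrix.submatrix_mul_equiv, Matrix.submatrix_mul_equiv, hanti, re_neg])
  rwa [Phi_reindex e (symm_iff.2 hHs)] at h

lemma feas_reindex (e : N ≃ N') {J γ : Matrix N N ℝ} {m : ℕ} (hJ1 : Jᵀ = -J) (hJ2 : J * J = -1)
    (hm : Fintype.card N = 2 * m) :
    feas m (Matrix.reindex e e J) (Matrix.reindex e e γ) = feas m J γ := by
  apply Set.Subset.antisymm
  · obtain ⟨hJ1', hJ2'⟩ := re_hyp e hJ1 hJ2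
    have hm' : Fintype.card N' = 2 * m := by rw [← Fintype.card_congr e, hm]
    have h := feas_reindex_sub (γ := Matrix.reindex e e γ) e.symm hJ1' hJ2' hm'
    have e1 : ∀ M : Matrix N N ℝ, Matrix.reindex e.symm e.symm (Matrix.reindex e e M) = M := by
      intro M; ext i j; simp
    rwa [e1, e1] at h
  · exact feas_reindex_sub e hJ1 hJ2 hm

end Pool.Agent.R993.GS
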