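import Pool.Agent.R993.GS.Lin

/-! # The Cayley transform of symplectic positive matrices -/

namespace Pool.Agent.R993.GS

open Matrix Finset
open scoped MatrixOrder

variable {N : Type*} [Fintype N] [DecidableEq N]

/-- Cayley transform -/
noncomputable def cay (P : Matrix N N ℝ) : Matrix N N ℝ := 1 - (2 : ℝ) • (P + 1)⁻¹

/-- inverse Cayley transform -/
noncomputable def icay (H : Matrix N N ℝ) : Matrix N N ℝ := (2 : ℝ) • (1 - H)⁻¹ - 1

lemma mul_nonsing {A : Matrix N N ℝ} (h : A.PosDef) : A * A⁻¹ = 1 :=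
  Matrix.mul_nonsing_inv A ((Matrix.isUnit_iff_isUnit_det A).1 h.isUnit)

lemma nonsing_mul {A : Matrix N N ℝ} (h : A.PosDef) : A⁻¹ * A = 1 :=
  Matrix.nonsing_inv_mul A ((Matrix.isUnit_iff_isUnit_det A).1 h.isUnit)

lemma add_one_pd {P : Matrix N N ℝ} (h : P.PosSemidef) : (P + 1).PosDef :=
  Matrix.PosDef.posSemidef_add h Matrix.PosDef.one

lemma inv_eq_of {A B : Matrix N N ℝ} (h : A * B = 1) : A⁻¹ = B := Matrix.inv_eq_right_inv h

lemma cay_symm {P : Matrix N N ℝ} (h : Pᵀ = P) : (cay P)ᵀ = cay P := by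
  unfold cay
  rw [Matrix.transpose_sub, Matrix.transpose_smul, Matrix.transpose_nonsing_inv,
    Matrix.transpose_add, h, Matrix.transpose_one]

lemma icay_symm {P : Matrix N N ℝ} (h : Pᵀ = P) : (icay P)ᵀ = icay P := by
  unfold icay
  rw [Matrix.transpose_sub, Matrix.transpose_smul, Matrix.transpose_nonsing_inv,
    Matrix.transpose_sub, h, Matrix.transpose_one]

/-- 1 - cay P is positive definite -/
lemma one_sub_cay_pd {P : Matrix N N ℝ} (h : P.PosSemidef) : (1 - cay P).PosDef := by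
  unfold cay
  rw [sub_sub_cancel]
  exact ((add_one_pd h).inv).smul (by norm_num)

lemma icay_cay {P : Matrix N N ℝ} (h : P.PosSemidef) : icay (cay P) = P := by
  have hp := add_one_pd h
  have e : (1 - cay P)⁻¹ = (1 / 2 : ℝ) • (P + 1) := by
    apply inv_eq_of
    unfold cay
    rw [sub_sub_cancel, smul_mul_assoc, mul_smul_comm, nonsing_mul hp, smul_smul]
    norm_num
  unfold icay
  rw [e, smul_smul]
  norm_num

lemma cay_icay {H : Matrix N N ℝ} (h : (1 - H).PosDef) : cay (icay H) = H := by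
  have e : (icay H + 1)⁻¹ = (1 / 2 : ℝ) • (1 - H) := by
    apply inv_eq_of
    unfold icay
    rw [sub_add_cancel, smul_mul_assoc, mul_smul_comm, nonsing_mul h, smul_smul]
    norm_num
  unfold cay
  rw [e, smul_smul]
  norm_num

/-- monotonicity of the Cayley transform -/
lemma cay_mono {P Q : Matrix N N ℝ} (hP : P.PosSemidef) (hQ : Q.PosSemidef)
    (h : (Q - P).PosSemidef) : (cay Q - cay P).PosSemidef := by
  have h1 := inv_anti (add_one_pd hP) (add_one_pd hQ) (by rw [add_sub_add_right_eq_sub]; exact h)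
  have h2 := h1.smul (by norm_num : (0 : ℝ) ≤ 2)
  unfold cay
  have e : (1 - (2 : ℝ) • (Q + 1)⁻¹ - (1 - (2 : ℝ) • (P + 1)⁻¹))
      = (2 : ℝ) • ((P + 1)⁻¹ - (Q + 1)⁻¹) := by
    rw [smul_sub]; abel
  rw [e]
  exact h2

lemma icay_le {H Q : Matrix N N ℝ} (hQ : Q.PosSemidef)
    (h : (cay Q - H).PosSemidef) : (Q - icay H).PosSemidef ∧ (1 - H).PosDef := by
  have h0 := one_sub_cay_pd hQ
  have h1 : (1 - H).PosDef := by
    have : 1 - H = (1 - cay Q) + (cay Q - H) := by abel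
    rw [this]
    exact h0.add_posSemidef h
  refine ⟨?_, h1⟩
  have h2 := inv_anti h0 h1 (by
    have : (1 - H) - (1 - cay Q) = cay Q - H := by abel
    rw [this]; exact h)
  have h3 := h2.smul (by norm_num : (0 : ℝ) ≤ 2)
  have e : Q - icay H = (2 : ℝ) • ((1 - cay Q)⁻¹ - (1 - H)⁻¹) := by
    conv_lhs => rw [← icay_cay hQ]
    unfold icay
    rw [smul_sub]
    abel
  rw [e]
  exact h3

/-! ### symplectic structure -/

variable {J : Matrix N N ℝ}

/-- symplectic P gives an H that anticommutes with J -/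
lemma cay_anti {P : Matrix N N ℝ} (hP : P.PosSemidef) (h : P * J * P = J) :
    J * cay P = -(cay P * J) := by
  have hp := add_one_pd hP
  set X := (P + 1)⁻¹ with hX
  have h1 : (P + 1) * X = 1 := mul_nonsing hp
  have h2 : X * (P + 1) = 1 := nonsing_mul hp
  have h3 : P * J = (1 + P) * (J * X) := by
    have : P * J * (P + 1) = (1 + P) * J := by
      rw [mul_add, h, mul_one, add_mul, one_mul]
    calc P * J = P * J * ((P + 1) * X) := by rw [h1, mul_one]
      _ = (P * J * (P + 1)) * X := by simp only [mul_assoc]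
      _ = (1 + P) * (J * X) := by rw [this, mul_assoc]
  have h4 : J * X = (1 - X) * J := by
    have e1 : X * (P * J) = J * X := by
      rw [h3, ← mul_assoc, add_comm 1 P, h2, one_mul]
    have e2 : X * P = 1 - X := by
      have : X * (P + 1) = X * P + X := by rw [mul_add, mul_one]
      rw [this] at h2
      rw [← h2]; abel
    rw [← e1, ← mul_assoc, e2]
  unfold cay
  rw [← hX, mul_sub, mul_one, mul_smul_comm, h4, sub_mul, sub_mul, one_mul, smul_mul_assoc,
    smul_sub, two_smul ℝ J]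
  abel

/-- H anticommuting with J gives a symplectic matrix -/
lemma icay_sympl {H : Matrix N N ℝ} (hH : (1 - H).PosDef) (h : J * H = -(H * J)) :
    icay H * J * icay H = J := by
  set Y := (1 - H)⁻¹ with hY
  have h1 : (1 - H) * Y = 1 := mul_nonsing hH
  have h2 : Y * (1 - H) = 1 := nonsing_mul hH
  have e1 : icay H = (1 + H) * Y := by
    unfold icay
    rw [← hY]
    calc (2 : ℝ) • Y - 1 = (2 : ℝ) • Y - (1 - H) * Y := by rw [h1]
      _ = (1 + H) * Y := by rw [sub_mul, add_mul, one_mul, two_smul]; abel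
  have e2 : icay H = Y * (1 + H) := by
    unfold icay
    rw [← hY]
    calc (2 : ℝ) • Y - 1 = (2 : ℝ) • Y - Y * (1 - H) := by rw [h2]
      _ = Y * (1 + H) := by rw [mul_sub, mul_add, mul_one, two_smul]; abel
  have e3 : J * (1 + H) = (1 - H) * J := by
    rw [mul_add, mul_one, h, sub_mul, one_mul]; abel
  have e4 : (1 + H) * J = J * (1 - H) := by
    rw [mul_sub, mul_one, h, add_mul, one_mul]; abel
  have e5 : icay H * J = (1 + H) * (Y * J) := by rw [e1, mul_assoc]
  calc icay H * J * icay H = ((1 + H) * (Y * J)) * ((1 + H) * Y) := by rw [e5]; rw [e1]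
    _ = (1 + H) * (Y * ((J * (1 + H)) * Y)) := by simp only [mul_assoc]
    _ = (1 + H) * ((Y * (1 - H)) * (J * Y)) := by rw [e3]; simp only [mul_assoc]
    _ = (1 + H) * J * Y := by rw [h2, one_mul, mul_assoc]
    _ = J * ((1 - H) * Y) := by rw [e4, mul_assoc]
    _ = J := by rw [h1, mul_one]

/-- -1 < H when H < 1 and H anticommutes with J -/
lemma one_add_pd {H : Matrix N N ℝ} (hJ1 : Jᵀ = -J) (hJ2 : J * J = -1)
    (hH : (1 - H).PosDef) (h : J * H = -(H * J)) : (1 + H).PosDef := by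
  have e : 1 + H = Jᵀ * (1 - H) * J := by
    rw [hJ1, mul_sub, mul_one, sub_mul]
    have : -J * H * J = H * (J * J) := by
      rw [neg_mul, h, neg_neg, mul_assoc]
    rw [this, hJ2, neg_mul, hJ2]
    simp
  rw [e, ← Matrix.conjTranspose_eq_transpose_of_trivial]
  apply hH.conjTranspose_mul_mul_same
  apply Matrix.mulVec_injective_of_isUnit
  rw [Matrix.isUnit_iff_isUnit_det]
  have : J * (-J) = 1 := by rw [mul_neg, hJ2, neg_neg]
  exact Matrix.isUnit_det_of_right_inverse this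

/-- the square root of a positive symplectic matrix is symplectic -/
lemma exists_sympl {P : Matrix N N ℝ} (hJ1 : Jᵀ = -J) (hJ2 : J * J = -1) (hP : P.PosDef)
    (h : P * J * P = J) : ∃ S : Matrix N N ℝ, Sᵀ = S ∧ Sᵀ * S = P ∧ Sᵀ * J * S = J := by
  have hPs := hP.posSemidef
  obtain ⟨S, hS⟩ : ∃ S, S = CFC.sqrt P := ⟨_, rfl⟩
  have hS0 : (0 : Matrix N N ℝ) ≤ S := by rw [hS]; exact CFC.sqrt_nonneg P
  have hSp : S.PosSemidef := by rwa [Matrix.nonneg_iff_posSemidef] at hS0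
  have hSS : S * S = P := by rw [hS]; exact CFC.sqrt_mul_sqrt_self P hPs.nonneg
  have hSt : Sᵀ = S := (psd_iff.1 hSp).1
  have hJJ : Jᵀ * J = 1 := by rw [hJ1, neg_mul, hJ2, neg_neg]
  have hJJ' : J * Jᵀ = 1 := by rw [hJ1, mul_neg, hJ2, neg_neg]
  have hinv : P⁻¹ = Jᵀ * P * J := by
    apply Matrix.inv_eq_left_inv
    rw [mul_assoc, mul_assoc, ← mul_assoc P, h, hJJ]
  have hS' : (Jᵀ * S * J).PosSemidef := by
    have := hSp.conjTranspose_mul_mul_same J
    rwa [Matrix.conjTranspose_eq_transpose_of_trivial] at this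
  have hsq : (Jᵀ * S * J) * (Jᵀ * S * J) = P⁻¹ := by
    calc (Jᵀ * S * J) * (Jᵀ * S * J) = Jᵀ * S * (J * Jᵀ) * S * J := by simp only [mul_assoc]
      _ = Jᵀ * (S * S) * J := by rw [hJJ', mul_one]; simp only [mul_assoc]
      _ = P⁻¹ := by rw [hSS, hinv]
  have huniq : CFC.sqrt P⁻¹ = Jᵀ * S * J :=
    CFC.sqrt_unique hsq hS'.nonneg
  have hSinv : S⁻¹ = Jᵀ * S * J := by
    rw [← huniq, hS]
    exact hPs.inv_sqrt
  have hSu : S * S⁻¹ = 1 := by
    apply Matrix.mul_nonsing_inv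
    rw [← Matrix.isUnit_iff_isUnit_det]
    have hu := hP.isUnit
    rw [← hSS] at hu
    exact isUnit_of_mul_isUnit_left hu
  refine ⟨S, hSt, by rw [hSt, hSS], ?_⟩
  rw [hSt]
  rw [hSinv] at hSu
  have h5 : S * Jᵀ * S = Jᵀ := by
    calc S * Jᵀ * S = (S * (Jᵀ * S * J)) * Jᵀ := by
          have : S * (Jᵀ * S * J) * Jᵀ = S * Jᵀ * S * (J * Jᵀ) := by simp only [mul_assoc]
          rw [this, hJJ', mul_one]
      _ = Jᵀ := by rw [hSu, one_mul]
  rw [hJ1, mul_neg, neg_mul, neg_inj] at h5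
  exact h5

/-- transposes of symplectic matrices are symplectic -/
lemma sympl_transpose {S : Matrix N N ℝ} (hJ2 : J * J = -1)
    (h : Sᵀ * J * S = J) : S * J * Sᵀ = J := by
  have h1 : (-(J * Sᵀ * J)) * S = 1 := by
    rw [neg_mul, mul_assoc, mul_assoc, ← mul_assoc Sᵀ, h, hJ2, neg_neg]
  have h2 : S * (-(J * Sᵀ * J)) = 1 := mul_eq_one_comm.1 h1
  rw [mul_neg] at h2
  have h3 : S * (J * Sᵀ * J) * J = -(1 : Matrix N N ℝ) * J := by
    rw [← h2, neg_neg]
  have h4 : S * (J * Sᵀ * J) * J = -(S * J * Sᵀ) := by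
    calc S * (J * Sᵀ * J) * J = S * J * Sᵀ * (J * J) := by simp only [mul_assoc]
      _ = _ := by rw [hJ2, mul_neg, mul_one]
  rw [h4, neg_mul, one_mul, neg_inj] at h3
  exact h3

lemma sympl_gram {S : Matrix N N ℝ} (hJ2 : J * J = -1) (h : Sᵀ * J * S = J) :
    (Sᵀ * S) * J * (Sᵀ * S) = J := by
  calc (Sᵀ * S) * J * (Sᵀ * S) = Sᵀ * (S * J * Sᵀ) * S := by simp only [mul_assoc]
    _ = J := by rw [sympl_transpose hJ2 h, h]

lemma sympl_isUnit {S : Matrix N N ℝ} (hJ2 : J * J = -1) (h : Sᵀ * J * S = J) : IsUnit S := by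
  rw [Matrix.isUnit_iff_isUnit_det]
  have h1 : (-(J * Sᵀ * J)) * S = 1 := by
    rw [neg_mul, mul_assoc, mul_assoc, ← mul_assoc Sᵀ, h, hJ2, neg_neg]
  exact Matrix.isUnit_det_of_left_inverse h1

lemma gram_pd {S : Matrix N N ℝ} (hJ2 : J * J = -1) (h : Sᵀ * J * S = J) :
    (Sᵀ * S).PosDef := by
  rw [← Matrix.conjTranspose_eq_transpose_of_trivial]
  exact Matrix.PosDef.conjTranspose_mul_self S
    (Matrix.mulVec_injective_of_isUnit (sympl_isUnit hJ2 h))

end Pool.Agent.R993.GS
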