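import Pool.Agent.R993.GS.Gen

/-! # Continuity tools: square roots, spectral sums -/

namespace Pool.Agent.R993.GS

open Matrix Finset Filter Topology
open scoped MatrixOrder

variable {N : Type*} [Fintype N] [DecidableEq N]

lemma exists_eigvec {H : Matrix N N ℝ} (hHs : H.IsHermitian) (j : N) :
    ∃ v : N → ℝ, v ⬝ᵥ v = 1 ∧ H *ᵥ v = hHs.eigenvalues j • v := by
  obtain ⟨U, hU, hd⟩ := exists_diag hHs
  refine ⟨fun i => U i j, ?_, ?_⟩
  · have : (Uᵀ * U) j j = 1 := by rw [hU, Matrix.one_apply_eq]
    rw [Matrix.mul_apply] at this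
    exact this
  · have e1 : (fun i => U i j) = U *ᵥ (Pi.single j 1) := by
      rw [Matrix.mulVec_single_one]; rfl
    have e2 : H * U = U * Matrix.diagonal hHs.eigenvalues := by
      conv_lhs => rw [hd]
      rw [mul_assoc, hU, mul_one]
    rw [e1, Matrix.mulVec_mulVec, e2, ← Matrix.mulVec_mulVec]
    rw [Matrix.diagonal_mulVec_single, mul_one]
    have : (Pi.single j (hHs.eigenvalues j) : N → ℝ)
        = hHs.eigenvalues j • (Pi.single j (1 : ℝ) : N → ℝ) := by
      rw [← Pi.single_smul]; simp
    rw [this, Matrix.mulVec_smul]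

lemma eig_le {H : Matrix N N ℝ} (hHs : H.IsHermitian) {r : ℝ}
    (h : (r • (1 : Matrix N N ℝ) - H).PosSemidef) (j : N) : hHs.eigenvalues j ≤ r := by
  obtain ⟨v, hv1, hv2⟩ := exists_eigvec hHs j
  have := (psd_iff.1 h).2 v
  rw [Matrix.sub_mulVec, Matrix.smul_mulVec, Matrix.one_mulVec, dotProduct_sub, hv2,
    dotProduct_smul, dotProduct_smul, hv1] at this
  simp only [smul_eq_mul, mul_one] at this
  linarith

lemma le_eig {H : Matrix N N ℝ} (hHs : H.IsHermitian) {r : ℝ}
    (h : (r • (1 : Matrix N N ℝ) + H).PosSemidef) (j : N) : -r ≤ hHs.eigenvalues j := by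
  obtain ⟨v, hv1, hv2⟩ := exists_eigvec hHs j
  have := (psd_iff.1 h).2 v
  rw [Matrix.add_mulVec, Matrix.smul_mulVec, Matrix.one_mulVec, dotProduct_add, hv2,
    dotProduct_smul, dotProduct_smul, hv1] at this
  simp only [smul_eq_mul, mul_one] at this
  linarith

/-- the positive semidefinite cone is closed -/
lemma isClosed_psd : IsClosed {A : Matrix N N ℝ | A.PosSemidef} := by
  have : {A : Matrix N N ℝ | A.PosSemidef}
      = {A | Aᵀ = A} ∩ ⋂ x : N → ℝ, {A | 0 ≤ x ⬝ᵥ (A *ᵥ x)} := by
    ext A
    simp only [Set.mem_ofPred_eq, Set.mem_inter_iff, Set.mem_iInter]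
    exact psd_iff
  rw [this]
  apply IsClosed.inter
  · exact isClosed_eq (by fun_prop) continuous_id
  · apply isClosed_iInter
    intro x
    apply isClosed_le continuous_const
    fun_prop

/-- a box of matrices is compact -/
lemma isCompact_box (c : ℝ) : IsCompact {A : Matrix N N ℝ | ∀ i j, A i j ∈ Set.Icc (-c) c} := by
  have : {A : Matrix N N ℝ | ∀ i j, A i j ∈ Set.Icc (-c) c}
      = Set.pi Set.univ (fun _ => Set.pi Set.univ (fun _ => Set.Icc (-c) c)) := by
    ext A
    constructor
    · intro h i _ j _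
      exact h i j
    · intro h i j
      exact h i trivial j trivial
  rw [this]
  exact isCompact_univ_pi fun _ => isCompact_univ_pi fun _ => isCompact_Icc

/-- the square root is continuous on the positive semidefinite cone -/
lemma continuousOn_sqrt : ContinuousOn (fun A : Matrix N N ℝ => CFC.sqrt A)
    {A | A.PosSemidef} := by
  intro A hA
  haveI : FirstCountableTopology (Matrix N N ℝ) :=
    inferInstanceAs (FirstCountableTopology (N → N → ℝ))
  apply Filter.tendsto_of_subseq_tendsto
  intro ns hns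
  have hns' : Tendsto ns atTop (𝓝 A) := tendsto_nhds_of_tendsto_nhdsWithin hns
  have hev : ∀ᶠ n in atTop, (ns n).PosSemidef := by
    have := hns.eventually (eventually_mem_nhdsWithin)
    exact this
  obtain ⟨n0, hn0⟩ := eventually_atTop.1 hev
  have htr : Tendsto (fun n => (ns n).trace) atTop (𝓝 A.trace) :=
    ((continuous_id.matrix_trace).tendsto A).comp hns'
  obtain ⟨c, hc⟩ := (htr.bddAbove_range)
  have hc' : ∀ n, (ns n).trace ≤ c := fun n => hc ⟨n, rfl⟩
  set R : ℕ → Matrix N N ℝ := fun n => CFC.sqrt (ns (n + n0)) with hR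
  have hRpsd : ∀ n, (R n).PosSemidef := fun n => by
    rw [← Matrix.nonneg_iff_posSemidef]
    exact CFC.sqrt_nonneg _
  have hRsq : ∀ n, R n * R n = ns (n + n0) := fun n =>
    CFC.sqrt_mul_sqrt_self _ (hn0 _ (by omega)).nonneg
  have hbox : ∀ n, R n ∈ {B : Matrix N N ℝ | ∀ i j, B i j ∈ Set.Icc (-(c + 1)) (c + 1)} := by
    intro n i j
    have ht : (R n)ᵀ = R n := (psd_iff.1 (hRpsd n)).1
    have h1 : (R n i j) ^ 2 ≤ (ns (n + n0)).trace := by
      rw [← hRsq n]
      conv_rhs => rw [← ht]
      rw [Matrix.trace]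
      simp only [Matrix.diag, Matrix.mul_apply, Matrix.transpose_apply]
      calc (R n i j) ^ 2 ≤ ∑ k, R n k j * R n k j := by
            rw [sq]
            exact Finset.single_le_sum (f := fun k => R n k j * R n k j)
              (fun k _ => mul_self_nonneg _) (Finset.mem_univ i)
        _ ≤ ∑ x, ∑ k, R n k x * R n x k := by
            have e : ∀ x, ∑ k, R n k x * R n x k = ∑ k, R n k x * R n k x := by
              intro x
              refine Finset.sum_congr rfl fun k _ => ?_
              have : R n x k = R n k x := by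
                conv_lhs => rw [← ht]
                rfl
              rw [this]
            simp only [e]
            exact Finset.single_le_sum (f := fun x => ∑ k, R n k x * R n k x)
              (fun x _ => Finset.sum_nonneg fun k _ => mul_self_nonneg _) (Finset.mem_univ j)
    have h2 : (R n i j) ^ 2 ≤ c := h1.trans (hc' _)
    have hc0 : 0 ≤ c := (sq_nonneg _).trans h2
    have h3 : |R n i j| ≤ c + 1 := by
      apply abs_le_of_sq_le_sq _ (by linarith)
      nlinarith
    exact abs_le.1 h3
  obtain ⟨B, _, φ, hφ, hB⟩ := (isCompact_box (c + 1)).tendsto_subseq hbox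
  refine ⟨fun n => φ n + n0, ?_⟩
  have hBpsd : B.PosSemidef := by
    have := isClosed_psd.mem_of_tendsto hB (Eventually.of_forall fun n => hRpsd (φ n))
    exact this
  have hBsq : B * B = A := by
    have h1 : Tendsto (fun n => R (φ n) * R (φ n)) atTop (𝓝 (B * B)) := hB.mul hB
    have h2 : Tendsto (fun n => R (φ n) * R (φ n)) atTop (𝓝 A) := by
      simp only [hRsq]
      exact hns'.comp ((tendsto_add_atTop_nat n0).comp hφ.tendsto_atTop)
    exact tendsto_nhds_unique h1 h2
  have : CFC.sqrt A = B := CFC.sqrt_unique hBsq hBpsd.nonneg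
  change Tendsto (fun n => CFC.sqrt (ns (φ n + n0))) atTop (𝓝 (CFC.sqrt A))
  rw [this]
  exact hB

/-! ### spectral sums -/

/-- symmetric part -/
noncomputable def sp (M : Matrix N N ℝ) : Matrix N N ℝ := (1 / 2 : ℝ) • (M + Mᵀ)

lemma sp_herm (M : Matrix N N ℝ) : (sp M).IsHermitian := by
  rw [symm_iff]
  unfold sp
  rw [Matrix.transpose_smul, Matrix.transpose_add, Matrix.transpose_transpose, add_comm]

lemma sp_eq {M : Matrix N N ℝ} (h : Mᵀ = M) : sp M = M := by
  unfold sp
  rw [h, ← two_smul ℝ M, smul_smul]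
  norm_num

lemma continuous_sp : Continuous (sp : Matrix N N ℝ → Matrix N N ℝ) := by
  unfold sp
  fun_prop

/-- spectral sum -/
noncomputable def esum (ψ : ℝ → ℝ) (M : Matrix N N ℝ) : ℝ := ∑ j, ψ ((sp_herm M).eigenvalues j)

lemma aeval_diag {S U : Matrix N N ℝ} {d : N → ℝ} (hU : Uᵀ * U = 1)
    (h : S = U * Matrix.diagonal d * Uᵀ) (p : Polynomial ℝ) :
    Polynomial.aeval S p = U * Matrix.diagonal (fun k => p.eval (d k)) * Uᵀ := by
  have hU' : U * Uᵀ = 1 := mul_eq_one_comm.1 hU
  have hpow : ∀ n : ℕ, S ^ n = U * Matrix.diagonal (fun k => d k ^ n) * Uᵀ := by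
    intro n
    induction n with
    | zero => simp [hU']
    | succ n ih =>
      rw [pow_succ, ih]
      conv_lhs => rw [h]
      calc U * Matrix.diagonal (fun k => d k ^ n) * Uᵀ * (U * Matrix.diagonal d * Uᵀ)
          = U * Matrix.diagonal (fun k => d k ^ n) * (Uᵀ * U) * Matrix.diagonal d * Uᵀ := by
            simp only [mul_assoc]
        _ = U * (Matrix.diagonal (fun k => d k ^ n) * Matrix.diagonal d) * Uᵀ := by
            rw [hU, mul_one]; simp only [mul_assoc]
        _ = _ := by rw [Matrix.diagonal_mul_diagonal]; simp only [pow_succ]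
  induction p using Polynomial.induction_on' with
  | add p q hp hq =>
    rw [map_add, hp, hq, ← add_mul, ← mul_add, Matrix.diagonal_add]
    simp only [Polynomial.eval_add]
  | monomial n a =>
    rw [Polynomial.aeval_monomial, hpow]
    simp only [Polynomial.eval_monomial]
    rw [← Algebra.smul_def, ← smul_mul_assoc, ← mul_smul_comm]
    congr 2
    ext i j
    by_cases hij : i = j
    · subst hij; simp
    · simp [Matrix.diagonal_apply_ne _ hij]

lemma trace_aeval {S : Matrix N N ℝ} (hS : S.IsHermitian) (p : Polynomial ℝ) :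
    (Polynomial.aeval S p).trace = ∑ j, p.eval (hS.eigenvalues j) := by
  obtain ⟨U, hU, hd⟩ := exists_diag hS
  rw [aeval_diag hU hd, Matrix.trace_mul_comm, ← mul_assoc, hU, one_mul, Matrix.trace_diagonal]

lemma continuous_aeval (p : Polynomial ℝ) :
    Continuous (fun S : Matrix N N ℝ => Polynomial.aeval S p) := by
  induction p using Polynomial.induction_on' with
  | add p q hp hq =>
    simp only [map_add]
    exact hp.add hq
  | monomial n a =>
    simp only [Polynomial.aeval_monomial]
    exact continuous_const.mul (continuous_pow n)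

lemma eig_abs_le {S : Matrix N N ℝ} (hS : S.IsHermitian) (j : N) :
    |hS.eigenvalues j| ≤ (S * S).trace + 1 := by
  have h := trace_aeval hS (Polynomial.X ^ 2)
  rw [map_pow, Polynomial.aeval_X, sq] at h
  simp only [Polynomial.eval_pow, Polynomial.eval_X] at h
  rw [h]
  have h1 : hS.eigenvalues j ^ 2 ≤ ∑ j, hS.eigenvalues j ^ 2 :=
    Finset.single_le_sum (f := fun j => hS.eigenvalues j ^ 2) (fun k _ => sq_nonneg _)
      (Finset.mem_univ j)
  have h0 : 0 ≤ ∑ j, hS.eigenvalues j ^ 2 := Finset.sum_nonneg fun k _ => sq_nonneg _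
  apply abs_le_of_sq_le_sq _ (by linarith)
  nlinarith

/-- spectral sums of continuous functions are continuous -/
lemma continuous_esum {ψ : ℝ → ℝ} (hψ : Continuous ψ) :
    Continuous (esum ψ : Matrix N N ℝ → ℝ) := by
  rw [continuous_iff_continuousAt]
  intro M0
  rw [Metric.continuousAt_iff']
  intro ε hε
  set b : ℝ := ((sp M0) * (sp M0)).trace + 2 with hb
  set c : ℝ := Fintype.card N + 1 with hc
  have hcpos : 0 < c := by rw [hc]; positivity
  obtain ⟨p, hp⟩ := exists_polynomial_near_of_continuousOn (-b) b ψ hψ.continuousOn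
    (ε / (4 * c)) (by positivity)
  have hF : Continuous (fun M : Matrix N N ℝ => (Polynomial.aeval (sp M) p).trace) :=
    ((continuous_aeval p).comp continuous_sp).matrix_trace
  have ht : Continuous (fun M : Matrix N N ℝ => ((sp M) * (sp M)).trace) :=
    (continuous_sp.mul continuous_sp).matrix_trace
  have hev1 : ∀ᶠ M in 𝓝 M0, ((sp M) * (sp M)).trace < ((sp M0) * (sp M0)).trace + 1 :=
    ht.continuousAt.eventually (gt_mem_nhds (by linarith))
  have hev2 : ∀ᶠ M in 𝓝 M0, dist ((Polynomial.aeval (sp M) p).trace)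
      ((Polynomial.aeval (sp M0) p).trace) < ε / 4 :=
    (Metric.continuousAt_iff'.1 hF.continuousAt) (ε / 4) (by positivity)
  have happ : ∀ M : Matrix N N ℝ, ((sp M) * (sp M)).trace < ((sp M0) * (sp M0)).trace + 1 →
      |esum ψ M - (Polynomial.aeval (sp M) p).trace| ≤ ε / 4 := by
    intro M hM
    rw [trace_aeval (sp_herm M)]
    unfold esum
    rw [← Finset.sum_sub_distrib]
    calc |∑ j, (ψ ((sp_herm M).eigenvalues j) - p.eval ((sp_herm M).eigenvalues j))|
        ≤ ∑ j, |ψ ((sp_herm M).eigenvalues j) - p.eval ((sp_herm M).eigenvalues j)| :=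
          Finset.abs_sum_le_sum_abs _ _
      _ ≤ ∑ _j : N, ε / (4 * c) := by
          refine Finset.sum_le_sum fun j _ => ?_
          have h1 := eig_abs_le (sp_herm M) j
          have h2 : (sp_herm M).eigenvalues j ∈ Set.Icc (-b) b := by
            rw [Set.mem_Icc, ← abs_le]
            linarith
          have h3 := hp _ h2
          rw [abs_sub_comm] at h3
          exact h3.le
      _ = Fintype.card N * (ε / (4 * c)) := by
          rw [Finset.sum_const, Finset.card_univ, nsmul_eq_mul]
      _ ≤ c * (ε / (4 * c)) := by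
          apply mul_le_mul_of_nonneg_right _ (by positivity)
          rw [hc]; linarith
      _ = ε / 4 := by field_simp
  filter_upwards [hev1, hev2] with M h1 h2
  have a1 := happ M h1
  have a2 := happ M0 (by linarith)
  rw [Real.dist_eq] at h2 ⊢
  rw [abs_le] at a1 a2
  rw [abs_lt] at h2 ⊢
  constructor <;> linarith

end Pool.Agent.R993.GS
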