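import Pool.Agent.R993.GS.Cont

/-! # Continuity of the squeezing measure -/

namespace Pool.Agent.R993.GS

open Matrix Finset Filter Topology
open scoped MatrixOrder

variable {N : Type*} [Fintype N] [DecidableEq N]

/-- symmetric contractions anticommuting with J -/
def contr (J : Matrix N N ℝ) : Set (Matrix N N ℝ) :=
  {C | Cᵀ = C ∧ J * C = -(C * J) ∧ (1 - C).PosSemidef}

lemma contr_add {J C : Matrix N N ℝ} (hJ1 : Jᵀ = -J) (hJ2 : J * J = -1) (hC : C ∈ contr J) :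
    (1 + C).PosSemidef := by
  have e : 1 + C = Jᵀ * (1 - C) * J := by
    rw [hJ1, mul_sub, mul_one, sub_mul]
    have : -J * C * J = C * (J * J) := by
      rw [neg_mul, hC.2.1, neg_neg, mul_assoc]
    rw [this, hJ2, neg_mul, hJ2]
    simp
  rw [e, ← Matrix.conjTranspose_eq_transpose_of_trivial]
  exact hC.2.2.conjTranspose_mul_mul_same _

lemma contr_box {J C : Matrix N N ℝ} (hJ1 : Jᵀ = -J) (hJ2 : J * J = -1) (hC : C ∈ contr J) :
    ∀ i j, C i j ∈ Set.Icc (-2 : ℝ) 2 := by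
  have h1 := psd_iff.1 hC.2.2
  have h2 := psd_iff.1 (contr_add hJ1 hJ2 hC)
  have q1 : ∀ x : N → ℝ, x ⬝ᵥ (C *ᵥ x) ≤ x ⬝ᵥ x := by
    intro x
    have := h1.2 x
    rw [Matrix.sub_mulVec, Matrix.one_mulVec, dotProduct_sub] at this
    linarith
  have q2 : ∀ x : N → ℝ, -(x ⬝ᵥ x) ≤ x ⬝ᵥ (C *ᵥ x) := by
    intro x
    have := h2.2 x
    rw [Matrix.add_mulVec, Matrix.one_mulVec, dotProduct_add] at this
    linarith
  intro i j
  have hsym : C j i = C i j := by
    conv_lhs => rw [← hC.1]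
    rfl
  have e1 : ∀ k, (Pi.single k (1 : ℝ)) ⬝ᵥ (C *ᵥ (Pi.single k (1 : ℝ))) = C k k := by
    intro k
    rw [single_one_dotProduct, Matrix.mulVec_single_one]; rfl
  have e2 : ∀ k, (Pi.single k (1 : ℝ) : N → ℝ) ⬝ᵥ (Pi.single k (1 : ℝ)) = 1 := by
    intro k; simp
  have a1 := q1 (Pi.single i 1)
  have a2 := q2 (Pi.single i 1)
  have b1 := q1 (Pi.single j 1)
  have b2 := q2 (Pi.single j 1)
  rw [e1, e2] at a1 a2 b1 b2
  by_cases hij : i = j
  · subst hij
    exact ⟨by linarith, by linarith⟩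
  · have c1 := q1 (Pi.single i 1 + Pi.single j 1)
    have c2 := q2 (Pi.single i 1 + Pi.single j 1)
    have e3 : (Pi.single i (1 : ℝ) + Pi.single j 1 : N → ℝ) ⬝ᵥ
        (C *ᵥ (Pi.single i (1 : ℝ) + Pi.single j 1)) = C i i + C j j + 2 * C i j := by
      rw [Matrix.mulVec_add, add_dotProduct, dotProduct_add, dotProduct_add]
      rw [e1, e1]
      have f1 : (Pi.single i (1 : ℝ)) ⬝ᵥ (C *ᵥ (Pi.single j (1 : ℝ))) = C i j := by
        rw [single_one_dotProduct, Matrix.mulVec_single_one]; rfl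
      have f2 : (Pi.single j (1 : ℝ)) ⬝ᵥ (C *ᵥ (Pi.single i (1 : ℝ))) = C j i := by
        rw [single_one_dotProduct, Matrix.mulVec_single_one]; rfl
      rw [f1, f2, hsym]; ring
    have e4 : (Pi.single i (1 : ℝ) + Pi.single j 1 : N → ℝ) ⬝ᵥ
        (Pi.single i (1 : ℝ) + Pi.single j 1) = 2 := by
      rw [add_dotProduct, dotProduct_add, dotProduct_add, e2, e2]
      have f1 : (Pi.single i (1 : ℝ) : N → ℝ) ⬝ᵥ (Pi.single j (1 : ℝ)) = 0 := by
        rw [single_one_dotProduct]; simp [hij]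
      have f2 : (Pi.single j (1 : ℝ) : N → ℝ) ⬝ᵥ (Pi.single i (1 : ℝ)) = 0 := by
        rw [single_one_dotProduct]; simp [Ne.symm hij]
      rw [f1, f2]; ring
    rw [e3, e4] at c1 c2
    exact ⟨by linarith, by linarith⟩

lemma isCompact_contr {J : Matrix N N ℝ} (hJ1 : Jᵀ = -J) (hJ2 : J * J = -1) :
    IsCompact (contr J) := by
  apply (isCompact_box (N := N) 2).of_isClosed_subset
  · have : contr J = {C | Cᵀ = C} ∩ ({C | J * C = -(C * J)} ∩
        (fun C => 1 - C) ⁻¹' {A | A.PosSemidef}) := by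
      ext C; rfl
    rw [this]
    refine IsClosed.inter ?_ (IsClosed.inter ?_ ?_)
    · exact isClosed_eq (by fun_prop) continuous_id
    · exact isClosed_eq (by fun_prop) (by fun_prop)
    · exact isClosed_psd.preimage (by fun_prop)
  · intro C hC
    exact contr_box hJ1 hJ2 hC

/-- the square root of a positive matrix commuting with J commutes with J -/
lemma sqrt_comm {J K : Matrix N N ℝ} (hJ1 : Jᵀ = -J) (hJ2 : J * J = -1) (hK : K.PosSemidef)
    (h : Jᵀ * K * J = K) : J * CFC.sqrt K = CFC.sqrt K * J := by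
  have hJJ' : J * Jᵀ = 1 := by rw [hJ1, mul_neg, hJ2, neg_neg]
  obtain ⟨R, hR⟩ : ∃ R, R = CFC.sqrt K := ⟨_, rfl⟩
  have hR0 : R.PosSemidef := by
    rw [← Matrix.nonneg_iff_posSemidef, hR]; exact CFC.sqrt_nonneg K
  have hRR : R * R = K := by rw [hR]; exact CFC.sqrt_mul_sqrt_self K hK.nonneg
  have hR' : (Jᵀ * R * J).PosSemidef := by
    have := hR0.conjTranspose_mul_mul_same J
    rwa [Matrix.conjTranspose_eq_transpose_of_trivial] at this
  have hsq : (Jᵀ * R * J) * (Jᵀ * R * J) = K := by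
    calc (Jᵀ * R * J) * (Jᵀ * R * J) = Jᵀ * R * (J * Jᵀ) * R * J := by simp only [mul_assoc]
      _ = Jᵀ * (R * R) * J := by rw [hJJ', mul_one]; simp only [mul_assoc]
      _ = K := by rw [hRR, h]
  have hu : CFC.sqrt K = Jᵀ * R * J := CFC.sqrt_unique hsq hR'.nonneg
  rw [← hR] at hu ⊢
  conv_lhs => rw [hu]
  rw [← mul_assoc, ← mul_assoc, hJJ', one_mul]

lemma sqrt_facts {K : Matrix N N ℝ} (hK : K.PosSemidef) :
    (CFC.sqrt K).PosSemidef ∧ CFC.sqrt K * CFC.sqrt K = K ∧ (CFC.sqrt K)ᵀ = CFC.sqrt K := by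
  have h0 : (CFC.sqrt K).PosSemidef := by
    rw [← Matrix.nonneg_iff_posSemidef]; exact CFC.sqrt_nonneg K
  exact ⟨h0, CFC.sqrt_mul_sqrt_self K hK.nonneg, (psd_iff.1 h0).1⟩

/-- representation of admissible N by contractions -/
lemma repr_contr {J K M : Matrix N N ℝ} (hJ1 : Jᵀ = -J) (hJ2 : J * J = -1) (hK : K.PosSemidef)
    (hKJ : Jᵀ * K * J = K) (hM : Mᵀ = M) (hMJ : J * M = -(M * J)) (hle : (K - M).PosSemidef) :
    ∃ C ∈ contr J, M = CFC.sqrt K * C * CFC.sqrt K := by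
  haveI : FirstCountableTopology (Matrix N N ℝ) :=
    inferInstanceAs (FirstCountableTopology (N → N → ℝ))
  have hJJ : Jᵀ * J = 1 := by rw [hJ1, neg_mul, hJ2, neg_neg]
  -- the regularised problem
  set Kd : ℕ → Matrix N N ℝ := fun n => K + (1 / ((n : ℝ) + 1)) • 1 with hKd
  have hpd : ∀ n, (Kd n).PosDef := fun n =>
    Matrix.PosDef.posSemidef_add hK (Matrix.PosDef.one.smul (by positivity))
  have hKdJ : ∀ n, Jᵀ * Kd n * J = Kd n := by
    intro n
    rw [hKd]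
    simp only
    rw [mul_add, add_mul, hKJ, mul_smul_comm, mul_one, smul_mul_assoc, hJJ]
  have hreg : ∀ n, ∃ C ∈ contr J, M = CFC.sqrt (Kd n) * C * CFC.sqrt (Kd n) := by
    intro n
    obtain ⟨hR0, hRR, hRt⟩ := sqrt_facts (hpd n).posSemidef
    have hRJ := sqrt_comm hJ1 hJ2 (hpd n).posSemidef (hKdJ n)
    set R := CFC.sqrt (Kd n) with hR
    have hRu : IsUnit R := by
      have hu := (hpd n).isUnit
      rw [← hRR] at hu
      exact isUnit_of_mul_isUnit_left hu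
    have hRd : IsUnit R.det := (Matrix.isUnit_iff_isUnit_det R).1 hRu
    have i1 : R * R⁻¹ = 1 := Matrix.mul_nonsing_inv R hRd
    have i2 : R⁻¹ * R = 1 := Matrix.nonsing_inv_mul R hRd
    have hRit : (R⁻¹)ᵀ = R⁻¹ := by rw [Matrix.transpose_nonsing_inv, hRt]
    have hRiJ : J * R⁻¹ = R⁻¹ * J := by
      calc J * R⁻¹ = (R⁻¹ * R) * (J * R⁻¹) := by rw [i2, one_mul]
        _ = R⁻¹ * (R * J) * R⁻¹ := by simp only [mul_assoc]
        _ = R⁻¹ * (J * R) * R⁻¹ := by rw [hRJ]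
        _ = R⁻¹ * J * (R * R⁻¹) := by simp only [mul_assoc]
        _ = R⁻¹ * J := by rw [i1, mul_one]
    refine ⟨R⁻¹ * M * R⁻¹, ⟨?_, ?_, ?_⟩, ?_⟩
    · rw [Matrix.transpose_mul, Matrix.transpose_mul, hRit, hM, mul_assoc]
    · calc J * (R⁻¹ * M * R⁻¹) = (J * R⁻¹) * M * R⁻¹ := by simp only [mul_assoc]
        _ = R⁻¹ * (J * M) * R⁻¹ := by rw [hRiJ]; simp only [mul_assoc]
        _ = -(R⁻¹ * M * (J * R⁻¹)) := by
            rw [hMJ]; simp only [mul_neg, neg_mul, mul_assoc]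
        _ = -(R⁻¹ * M * R⁻¹ * J) := by rw [hRiJ]; simp only [mul_assoc]
    · have e : 1 - R⁻¹ * M * R⁻¹ = (R⁻¹)ᴴ * (Kd n - M) * R⁻¹ := by
        rw [Matrix.conjTranspose_eq_transpose_of_trivial, hRit, mul_sub, sub_mul, ← hRR]
        have : R⁻¹ * (R * R) * R⁻¹ = 1 := by
          rw [← mul_assoc, i2, one_mul, i1]
        rw [this]
      rw [e]
      apply Matrix.PosSemidef.conjTranspose_mul_mul_same
      have : Kd n - M = (K - M) + (1 / ((n : ℝ) + 1)) • 1 := by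
        rw [hKd]; simp only; abel
      rw [this]
      exact hle.add (Matrix.PosSemidef.one.smul (by positivity))
    · calc M = (R * R⁻¹) * M * (R⁻¹ * R) := by rw [i1, i2, one_mul, mul_one]
        _ = R * (R⁻¹ * M * R⁻¹) * R := by simp only [mul_assoc]
  choose C hC hMC using hreg
  obtain ⟨C0, hC0, φ, hφ, hlim⟩ := (isCompact_contr hJ1 hJ2).tendsto_subseq hC
  refine ⟨C0, hC0, ?_⟩
  have hKlim : Tendsto Kd atTop (𝓝 K) := by
    have : Tendsto (fun n : ℕ => K + (1 / ((n : ℝ) + 1)) • (1 : Matrix N N ℝ)) atTop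
        (𝓝 (K + (0 : ℝ) • 1)) :=
      tendsto_const_nhds.add (tendsto_one_div_add_atTop_nhds_zero_nat.smul_const _)
    rw [zero_smul, add_zero] at this
    exact this
  have hRlim : Tendsto (fun n => CFC.sqrt (Kd n)) atTop (𝓝 (CFC.sqrt K)) :=
    (continuousOn_sqrt K hK).tendsto.comp
      (tendsto_nhdsWithin_of_tendsto_nhds_of_eventually_within _ hKlim
        (Eventually.of_forall fun n => (hpd n).posSemidef))
  have hRlim' := hRlim.comp hφ.tendsto_atTop
  have h1 : Tendsto (fun n => CFC.sqrt (Kd (φ n)) * C (φ n) * CFC.sqrt (Kd (φ n))) atTop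
      (𝓝 (CFC.sqrt K * C0 * CFC.sqrt K)) := (hRlim'.mul hlim).mul hRlim'
  have h2 : (fun n => CFC.sqrt (Kd (φ n)) * C (φ n) * CFC.sqrt (Kd (φ n))) = fun _ => M := by
    funext n
    exact (hMC (φ n)).symm
  rw [h2] at h1
  exact tendsto_nhds_unique tendsto_const_nhds h1

/-- parametrised H -/
noncomputable def Hof (J γ C : Matrix N N ℝ) : Matrix N N ℝ :=
  Hpart J γ + CFC.sqrt (Kpart J γ) * C * CFC.sqrt (Kpart J γ)

lemma Hof_props {J γ C : Matrix N N ℝ} (hJ1 : Jᵀ = -J) (hJ2 : J * J = -1) (h : RC J γ)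
    (hC : C ∈ contr J) : (Hof J γ C)ᵀ = Hof J γ C ∧ J * Hof J γ C = -(Hof J γ C * J) ∧
      (cay γ - Hof J γ C).PosSemidef := by
  have hK := h.K_psd hJ1 hJ2
  obtain ⟨hR0, hRR, hRt⟩ := sqrt_facts hK
  have hRJ := sqrt_comm hJ1 hJ2 hK (Kpart_comm hJ1 hJ2 γ)
  set R := CFC.sqrt (Kpart J γ) with hR
  refine ⟨?_, ?_, ?_⟩
  · unfold Hof
    rw [Matrix.transpose_add, Hpart_symm h.1, Matrix.transpose_mul, Matrix.transpose_mul, ← hR,
      hRt, hC.1, mul_assoc]
  · unfold Hof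
    rw [mul_add, add_mul, Hpart_anti hJ1 hJ2, ← hR]
    have : J * (R * C * R) = -(R * C * R * J) := by
      calc J * (R * C * R) = (J * R) * C * R := by simp only [mul_assoc]
        _ = R * (J * C) * R := by rw [hRJ]; simp only [mul_assoc]
        _ = -(R * C * (J * R)) := by rw [hC.2.1]; simp only [mul_neg, neg_mul, mul_assoc]
        _ = _ := by rw [hRJ]; simp only [mul_assoc]
    rw [this]
    abel
  · have e : cay γ - Hof J γ C = Rᴴ * (1 - C) * R := by
      unfold Hof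
      rw [Matrix.conjTranspose_eq_transpose_of_trivial, hRt, mul_sub, mul_one, sub_mul, hRR,
        ← K_add_H J γ, ← hR]
      abel
    rw [e]
    exact hC.2.2.conjTranspose_mul_mul_same R

lemma feas_eq {m : ℕ} {J γ : Matrix N N ℝ} (hJ1 : Jᵀ = -J) (hJ2 : J * J = -1)
    (hm : Fintype.card N = 2 * m) (h : RC J γ) :
    feas m J γ = (fun C => (1 / 4) * esum phi (Hof J γ C)) '' contr J := by
  ext x
  constructor
  · intro hx
    obtain ⟨H, hHs, hle, hanti, _, rfl, _⟩ := H_of_feas hJ1 hJ2 hm hx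
    obtain ⟨C, hC, hMC⟩ := repr_contr hJ1 hJ2 (h.K_psd hJ1 hJ2) (Kpart_comm hJ1 hJ2 γ)
      (M := H - Hpart J γ) (by rw [Matrix.transpose_sub, hHs, Hpart_symm h.1])
      (by rw [mul_sub, sub_mul, hanti, Hpart_anti hJ1 hJ2]; abel)
      (by
        have : Kpart J γ - (H - Hpart J γ) = cay γ - H := by
          rw [← K_add_H J γ]; abel
        rw [this]; exact hle)
    refine ⟨C, hC, ?_⟩
    have e : Hof J γ C = H := by
      unfold Hof
      rw [← hMC]; abel
    simp only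
    rw [e]
    unfold esum Phi
    congr 1
    obtain ⟨U, hU, hd⟩ := exists_diag (symm_iff.2 hHs)
    exact eig_sum (sp_herm H) hU (by rw [sp_eq hHs]; exact hd) phi
  · rintro ⟨C, hC, rfl⟩
    obtain ⟨h1, h2, h3⟩ := Hof_props hJ1 hJ2 h hC
    have h4 := feas_of_H hJ1 hJ2 hm (h.pd hJ1 hJ2).posSemidef h1 h3 h2
    have e : Phi (Hof J γ C) (symm_iff.2 h1) = (1 / 4) * esum phi (Hof J γ C) := by
      unfold esum Phi
      congr 1
      obtain ⟨U, hU, hd⟩ := exists_diag (symm_iff.2 h1)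
      exact (eig_sum (sp_herm _) hU (by rw [sp_eq h1]; exact hd) phi).symm
    simp only
    rwa [← e]

end Pool.Agent.R993.GS
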