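import Pool.Agent.R993.GS.Cont2

/-! # Continuity of the squeezing measure: conclusion -/

namespace Pool.Agent.R993.GS

open Matrix Finset Filter Topology
open scoped MatrixOrder

variable {N : Type*} [Fintype N] [DecidableEq N]

/-- a positive semidefinite matrix is bounded by a multiple of the identity -/
lemma psd_le_smul {A : Matrix N N ℝ} (hA : A.IsHermitian) :
    ∃ t : ℝ, 0 < t ∧ (t • (1 : Matrix N N ℝ) - A).PosSemidef := by
  obtain ⟨U, hU, hd⟩ := exists_diag hA
  have hU' : U * Uᵀ = 1 := mul_eq_one_comm.1 hU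
  refine ⟨(∑ j, |hA.eigenvalues j|) + 1, ?_, ?_⟩
  · have : 0 ≤ ∑ j, |hA.eigenvalues j| := Finset.sum_nonneg fun j _ => abs_nonneg _
    linarith
  · set t := (∑ j, |hA.eigenvalues j|) + 1 with ht
    have e : t • (1 : Matrix N N ℝ) - A
        = (Uᵀ)ᴴ * Matrix.diagonal (fun j => t - hA.eigenvalues j) * Uᵀ := by
      rw [Matrix.conjTranspose_eq_transpose_of_trivial, Matrix.transpose_transpose]
      have h1 : Matrix.diagonal (fun j => t - hA.eigenvalues j)
          = t • (1 : Matrix N N ℝ) - Matrix.diagonal hA.eigenvalues := by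
        ext i j
        by_cases hij : i = j
        · subst hij; simp
        · simp [Matrix.diagonal_apply_ne _ hij, Matrix.one_apply_ne hij]
      rw [h1, mul_sub, sub_mul, ← hd, mul_smul_comm, mul_one, smul_mul_assoc, hU']
    rw [e]
    apply Matrix.PosSemidef.conjTranspose_mul_mul_same
    apply Matrix.PosSemidef.diagonal
    intro j
    have h1 : hA.eigenvalues j ≤ |hA.eigenvalues j| := le_abs_self _
    have h2 : |hA.eigenvalues j| ≤ ∑ j, |hA.eigenvalues j| :=
      Finset.single_le_sum (f := fun j => |hA.eigenvalues j|) (fun k _ => abs_nonneg _)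
        (Finset.mem_univ j)
    simp only [Pi.zero_apply]
    linarith

/-- near γ₀ all symmetric γ are at most γ₀ + 1 -/
lemma eventually_le (γ₀ : Matrix N N ℝ) (h0 : γ₀ᵀ = γ₀) :
    ∀ᶠ γ in 𝓝 γ₀, γᵀ = γ → (γ₀ + 1 - γ).PosSemidef := by
  set c : ℝ := 1 / ((Fintype.card N : ℝ) + 1) with hc
  have hcpos : 0 < c := by rw [hc]; positivity
  have hev : ∀ᶠ γ in 𝓝 γ₀, ∀ i j, |γ i j - γ₀ i j| < c := by
    rw [eventually_all]
    intro i
    rw [eventually_all]
    intro j
    have hcont : Continuous (fun γ : Matrix N N ℝ => |γ i j - γ₀ i j|) := by fun_prop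
    have := hcont.continuousAt (x := γ₀)
    have h1 : |γ₀ i j - γ₀ i j| < c := by simpa using hcpos
    exact this.eventually (gt_mem_nhds h1)
  filter_upwards [hev] with γ hγ hs
  rw [psd_iff]
  refine ⟨by rw [Matrix.transpose_sub, Matrix.transpose_add, h0, Matrix.transpose_one, hs], ?_⟩
  intro x
  have e : x ⬝ᵥ ((γ₀ + 1 - γ) *ᵥ x) = x ⬝ᵥ x - x ⬝ᵥ ((γ - γ₀) *ᵥ x) := by
    have : γ₀ + 1 - γ = 1 - (γ - γ₀) := by abel
    rw [this, Matrix.sub_mulVec, Matrix.one_mulVec, dotProduct_sub]
  rw [e]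
  have hb : x ⬝ᵥ ((γ - γ₀) *ᵥ x) ≤ c * (∑ i, |x i|) ^ 2 := by
    simp only [dotProduct, Matrix.mulVec, Finset.mul_sum]
    rw [sq, Finset.sum_mul_sum, Finset.mul_sum]
    refine Finset.sum_le_sum fun i _ => ?_
    rw [Finset.mul_sum]
    refine Finset.sum_le_sum fun j _ => ?_
    calc x i * ((γ - γ₀) i j * x j) ≤ |x i * ((γ - γ₀) i j * x j)| := le_abs_self _
      _ = |γ i j - γ₀ i j| * (|x i| * |x j|) := by
          rw [abs_mul, abs_mul, Matrix.sub_apply]; ring
      _ ≤ c * (|x i| * |x j|) :=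
          mul_le_mul_of_nonneg_right (hγ i j).le (by positivity)
  have hcs : (∑ i, |x i|) ^ 2 ≤ (Fintype.card N : ℝ) * (x ⬝ᵥ x) := by
    have h1 := sq_sum_le_card_mul_sum_sq (s := Finset.univ) (f := fun i => |x i|)
    simp only [sq_abs, Finset.card_univ] at h1
    refine h1.trans (le_of_eq ?_)
    congr 1
    refine Finset.sum_congr rfl fun i _ => by ring
  have hxx : 0 ≤ x ⬝ᵥ x := Finset.sum_nonneg fun i _ => mul_self_nonneg _
  have h2 : c * (∑ i, |x i|) ^ 2 ≤ x ⬝ᵥ x := by
    calc c * (∑ i, |x i|) ^ 2 ≤ c * ((Fintype.card N : ℝ) * (x ⬝ᵥ x)) :=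
          mul_le_mul_of_nonneg_left hcs hcpos.le
      _ = (c * (Fintype.card N : ℝ)) * (x ⬝ᵥ x) := by ring
      _ ≤ 1 * (x ⬝ᵥ x) := by
          apply mul_le_mul_of_nonneg_right _ hxx
          rw [hc, one_div, inv_mul_le_iff₀ (by positivity)]
          linarith
      _ = x ⬝ᵥ x := one_mul _
  linarith

/-- continuity of the Cayley transform on the positive cone -/
lemma continuousOn_cay : ContinuousOn (cay : Matrix N N ℝ → Matrix N N ℝ)
    {A | A.PosSemidef} := by
  have h1 : ∀ A : Matrix N N ℝ, A.PosSemidef → (A + 1).det ≠ 0 := by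
    intro A hA
    have := (Matrix.isUnit_iff_isUnit_det _).1 (add_one_pd hA).isUnit
    exact this.ne_zero
  have h2 : ∀ A : Matrix N N ℝ, (A + 1)⁻¹ = ((A + 1).det)⁻¹ • (A + 1).adjugate := by
    intro A
    rw [Matrix.inv_def, Ring.inverse_eq_inv']
  unfold cay
  simp only [h2]
  apply ContinuousOn.sub continuousOn_const
  refine (continuousOn_const (c := (2:ℝ))).smul ?_
  have a1 : ContinuousOn (fun A : Matrix N N ℝ => ((A + 1).det)⁻¹) {A | A.PosSemidef} := by
    apply ContinuousOn.inv₀
    · fun_prop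
    · intro A hA; exact h1 A hA
  have a2 : ContinuousOn (fun A : Matrix N N ℝ => (A + 1).adjugate) {A | A.PosSemidef} := by
    have : Continuous (fun A : Matrix N N ℝ => (A + 1).adjugate) :=
      (continuous_id.add continuous_const).matrix_adjugate
    exact this.continuousOn
  exact a1.smul a2

/-- the measure is continuous on covariance matrices -/
theorem gen_continuousOn {m : ℕ} {J : Matrix N N ℝ} (hJ1 : Jᵀ = -J) (hJ2 : J * J = -1)
    (hm : Fintype.card N = 2 * m) :
    ContinuousOn (fun γ => sInf (feas m J γ)) {γ | RC J γ} := by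
  rw [continuousOn_iff_continuous_restrict, continuous_iff_continuousAt]
  rintro ⟨γ₀, hγ₀⟩
  have hγ0 : RC J γ₀ := hγ₀
  have hp0 := (hγ0.pd hJ1 hJ2).posSemidef
  -- a uniform spectral gap
  have hp1 : (γ₀ + 1).PosSemidef := (add_one_pd hp0).posSemidef
  have hp2 : (γ₀ + 1 + 1).PosDef := add_one_pd hp1
  obtain ⟨t, ht, htle⟩ := psd_le_smul hp2.isHermitian
  set r : ℝ := 1 - 2 / t with hr
  have hgap : (r • (1 : Matrix N N ℝ) - cay (γ₀ + 1)).PosSemidef := by
    have h1 := inv_anti hp2 (Matrix.PosDef.one.smul ht) htle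
    have h2 : (t • (1 : Matrix N N ℝ))⁻¹ = (1 / t) • 1 := by
      apply Matrix.inv_eq_right_inv
      rw [smul_mul_assoc, mul_smul_comm, one_mul, smul_smul, mul_one_div_cancel ht.ne', one_smul]
    rw [h2] at h1
    have h3 := h1.smul (by norm_num : (0 : ℝ) ≤ 2)
    have e : r • (1 : Matrix N N ℝ) - cay (γ₀ + 1)
        = (2 : ℝ) • ((γ₀ + 1 + 1)⁻¹ - (1 / t) • (1 : Matrix N N ℝ)) := by
      unfold cay
      rw [hr, sub_smul, one_smul, smul_sub, smul_smul]
      have : (2 : ℝ) * (1 / t) = 2 / t := by ring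
      rw [this]
      abel
    rw [e]; exact h3
  have hr1 : r < 1 := by
    rw [hr]
    have : 0 < 2 / t := by positivity
    linarith
  set r' : ℝ := max r 0 with hr'
  have hr'1 : r' < 1 := max_lt hr1 one_pos
  have hr'0 : 0 ≤ r' := le_max_right _ _
  -- the truncated function
  set ψ : ℝ → ℝ := fun x => phi (max (-r') (min r' x)) with hψ
  have hψc : Continuous ψ := by
    have h1 : ∀ x, |max (-r') (min r' x)| ≤ r' := by
      intro x
      rw [abs_le]
      exact ⟨le_max_left _ _, max_le (by linarith) (min_le_left _ _)⟩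
    rw [hψ]
    unfold phi
    apply Continuous.log
    · apply Continuous.div
      · fun_prop
      · fun_prop
      · intro x
        have := h1 x
        have : 0 < 1 - |max (-r') (min r' x)| := by linarith
        exact this.ne'
    · intro x
      have h2 := h1 x
      have h3 : 0 < 1 - |max (-r') (min r' x)| := by linarith
      have h4 := abs_nonneg (max (-r') (min r' x))
      positivity
  have hψeq : ∀ x, |x| ≤ r' → ψ x = phi x := by
    intro x hx
    rw [abs_le] at hx
    rw [hψ]
    simp only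
    rw [min_eq_right hx.2, max_eq_right hx.1]
  -- global continuity of the parametrised function
  set X := {γ : Matrix N N ℝ // RC J γ} with hX
  have hcayX : Continuous (fun γ : X => cay γ.1) := by
    have := continuousOn_cay (N := N)
    rw [continuousOn_iff_continuous_restrict] at this
    exact this.comp (f := fun γ : X => (⟨γ.1, (γ.2.pd hJ1 hJ2).posSemidef⟩ :
      {A : Matrix N N ℝ | A.PosSemidef})) (by fun_prop)
  have hHX : Continuous (fun γ : X => Hpart J γ.1) := by
    unfold Hpart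
    exact (continuous_const (y := (1/2:ℝ))).smul
      (hcayX.sub ((continuous_const.mul hcayX).mul continuous_const))
  have hKX : Continuous (fun γ : X => Kpart J γ.1) := by
    unfold Kpart
    exact (continuous_const (y := (1/2:ℝ))).smul
      (hcayX.add ((continuous_const.mul hcayX).mul continuous_const))
  have hRX : Continuous (fun γ : X => CFC.sqrt (Kpart J γ.1)) := by
    have := continuousOn_sqrt (N := N)
    rw [continuousOn_iff_continuous_restrict] at this
    exact this.comp (f := fun γ : X => (⟨Kpart J γ.1, γ.2.K_psd hJ1 hJ2⟩ :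
      {A : Matrix N N ℝ | A.PosSemidef})) (by fun_prop)
  set f : X → Matrix N N ℝ → ℝ := fun γ C => (1 / 4) * esum ψ (Hof J γ.1 C) with hf
  have hfc : Continuous ↿f := by
    have h1 : Continuous (fun p : X × Matrix N N ℝ => Hof J p.1.1 p.2) := by
      unfold Hof
      exact (hHX.comp continuous_fst).add
        (((hRX.comp continuous_fst).mul continuous_snd).mul (hRX.comp continuous_fst))
    exact continuous_const.mul ((continuous_esum hψc).comp h1)
  have hcont := (isCompact_contr hJ1 hJ2).continuous_sInf hfc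
  -- agreement near γ₀
  have hev : ∀ᶠ γ : X in 𝓝 ⟨γ₀, hγ0⟩, sInf (f γ '' contr J) = sInf (feas m J γ.1) := by
    have h1 : ∀ᶠ γ : X in 𝓝 ⟨γ₀, hγ0⟩, (γ.1)ᵀ = γ.1 → (γ₀ + 1 - γ.1).PosSemidef :=
      (continuous_subtype_val.tendsto (⟨γ₀, hγ0⟩ : X)).eventually (eventually_le γ₀ hγ0.1)
    filter_upwards [h1] with γ hγ
    have hle := hγ γ.2.1
    rw [feas_eq hJ1 hJ2 hm γ.2]
    congr 1
    apply Set.image_congr
    intro C hC
    simp only [hf]
    congr 1
    obtain ⟨p1, p2, p3⟩ := Hof_props hJ1 hJ2 γ.2 hC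
    unfold esum
    refine Finset.sum_congr rfl fun j _ => ?_
    apply hψeq
    have hspe : sp (Hof J γ.1 C) = Hof J γ.1 C := sp_eq p1
    have q1 : (r • (1 : Matrix N N ℝ) - Hof J γ.1 C).PosSemidef := by
      have a1 := cay_mono (γ.2.pd hJ1 hJ2).posSemidef hp1 hle
      have e : r • (1 : Matrix N N ℝ) - Hof J γ.1 C
          = (r • (1 : Matrix N N ℝ) - cay (γ₀ + 1)) + (cay (γ₀ + 1) - cay γ.1) +
            (cay γ.1 - Hof J γ.1 C) := by abel
      rw [e]
      exact (hgap.add a1).add p3
    have q2 : (r • (1 : Matrix N N ℝ) + Hof J γ.1 C).PosSemidef := by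
      have hJJ : Jᵀ * J = 1 := by rw [hJ1, neg_mul, hJ2, neg_neg]
      have e : r • (1 : Matrix N N ℝ) + Hof J γ.1 C
          = Jᴴ * (r • (1 : Matrix N N ℝ) - Hof J γ.1 C) * J := by
        rw [Matrix.conjTranspose_eq_transpose_of_trivial, mul_sub, sub_mul, mul_smul_comm,
          mul_one, smul_mul_assoc, hJJ]
        have : Jᵀ * Hof J γ.1 C * J = -Hof J γ.1 C := by
          rw [hJ1, neg_mul, p2, neg_neg, mul_assoc, hJ2, mul_neg, mul_one]
        rw [this, sub_neg_eq_add]
      rw [e]
      exact q1.conjTranspose_mul_mul_same J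
    rw [← hspe] at q1 q2
    have u1 := eig_le (sp_herm (Hof J γ.1 C)) q1 j
    have u2 := le_eig (sp_herm (Hof J γ.1 C)) q2 j
    rw [abs_le]
    have u3 : r ≤ r' := le_max_left _ _
    exact ⟨by linarith, by linarith⟩
  exact (hcont.continuousAt).congr hev

end Pool.Agent.R993.GS
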