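import Mathlib

/-! # Covariance matrices and the squeezing measure G -/

namespace Pool.Agent.R993.GS

open Matrix
open scoped ComplexOrder

/-- real matrices of size 2n, rows and columns indexed by mode and quadrature (0 for Q, 1 for P) -/
abbrev Mat (n : ℕ) := Matrix (Fin n × Fin 2) (Fin n × Fin 2) ℝ

/-- the symplectic form, the direct sum of n copies of ((0, 1), (-1, 0)) -/
def sForm (n : ℕ) : Mat n :=
  Matrix.of fun x y => if x.1 = y.1 then (!![0, 1; -1, 0] : Matrix (Fin 2) (Fin 2) ℝ) x.2 y.2 else 0

/-- the real symplectic group Sp(2n) -/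
def IsSymplectic {n : ℕ} (S : Mat n) : Prop := Sᵀ * sForm n * S = sForm n

/-- covariance matrices on n modes: γ real symmetric and γ - iσ positive semidefinite -/
def IsCov {n : ℕ} (γ : Mat n) : Prop :=
  γᵀ = γ ∧ (γ.map Complex.ofReal - Complex.I • (sForm n).map Complex.ofReal).PosSemidef

/-- the sum of the logarithms of the n largest singular values of a matrix of size 2n -/
noncomputable def logTop {n : ℕ} (S : Mat n) : ℝ :=
  ∑ i ∈ Finset.range n, Real.log ((Matrix.toEuclideanLin S).singularValues i)

/-- the squeezing measure G -/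
noncomputable def G {n : ℕ} (γ : Mat n) : ℝ :=
  sInf {x : ℝ | ∃ S : Mat n, IsSymplectic S ∧ (γ - Sᵀ * S).PosSemidef ∧ x = logTop S}

end Pool.Agent.R993.GS
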