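import Pool.Agent.R993.GS.Sing

/-! # The squeezing measure for a general symplectic form -/

namespace Pool.Agent.R993.GS

open Matrix Finset

variable {N : Type*} [Fintype N] [DecidableEq N]

/-- values of the squeezing measure on feasible symplectic matrices -/
def feas (m : ℕ) (J γ : Matrix N N ℝ) : Set ℝ :=
  {x | ∃ S : Matrix N N ℝ, Sᵀ * J * S = J ∧ (γ - Sᵀ * S).PosSemidef ∧ x = topLog m S}

/-- real form of the covariance condition -/
def RC (J γ : Matrix N N ℝ) : Prop :=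
  γᵀ = γ ∧ ∀ x y : N → ℝ, 0 ≤ x ⬝ᵥ (γ *ᵥ x) + y ⬝ᵥ (γ *ᵥ y) + 2 * (x ⬝ᵥ (J *ᵥ y))

lemma Phi_congr {H H' : Matrix N N ℝ} (h : H = H') (hH : H.IsHermitian) (hH' : H'.IsHermitian) :
    Phi H hH = Phi H' hH' := by
  subst h; rfl

/-- the inverse Cayley transform of a feasible H -/
lemma icay_pd {J H : Matrix N N ℝ} (hJ1 : Jᵀ = -J) (hJ2 : J * J = -1) (hHs : Hᵀ = H)
    (hH : (1 - H).PosDef) (h : J * H = -(H * J)) : (icay H).PosDef := by
  have h1 := one_add_pd hJ1 hJ2 hH h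
  have h2 : ((2 : ℝ) • (1 : Matrix N N ℝ)).PosDef := Matrix.PosDef.one.smul (by norm_num)
  have h3 := inv_anti hH h2 (by
    have : (2 : ℝ) • (1 : Matrix N N ℝ) - (1 - H) = 1 + H := by rw [two_smul]; abel
    rw [this]; exact h1.posSemidef)
  have h4 : ((2 : ℝ) • (1 : Matrix N N ℝ))⁻¹ = (1 / 2 : ℝ) • 1 := by
    apply Matrix.inv_eq_right_inv
    rw [smul_mul_assoc, mul_smul_comm, one_mul, smul_smul]
    norm_num
  rw [h4] at h3
  have h5 := h3.smul (by norm_num : (0 : ℝ) ≤ 2)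
  have h6 : icay H = (2 : ℝ) • ((1 - H)⁻¹ - (1 / 2 : ℝ) • 1) := by
    unfold icay
    rw [smul_sub, smul_smul]
    norm_num
  rw [← h6] at h5
  rw [h5.posDef_iff_isUnit]
  have h7 := icay_sympl hH h
  rw [Matrix.isUnit_iff_isUnit_det]
  apply Matrix.isUnit_det_of_right_inverse (B := J * icay H * (-J))
  rw [← mul_assoc, ← mul_assoc, h7, mul_neg, hJ2, neg_neg]

/-- feasible H give feasible symplectic matrices -/
lemma feas_of_H {m : ℕ} {J γ H : Matrix N N ℝ} (hJ1 : Jᵀ = -J) (hJ2 : J * J = -1)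
    (hm : Fintype.card N = 2 * m) (hγ : γ.PosSemidef) (hHs : Hᵀ = H)
    (hle : (cay γ - H).PosSemidef) (h : J * H = -(H * J)) :
    Phi H (symm_iff.2 hHs) ∈ feas m J γ := by
  obtain ⟨h1, h2⟩ := icay_le hγ hle
  obtain ⟨S, _, hSP, hSJ⟩ := exists_sympl hJ1 hJ2 (icay_pd hJ1 hJ2 hHs h2 h) (icay_sympl h2 h)
  refine ⟨S, hSJ, by rw [hSP]; exact h1, ?_⟩
  have hc : cay (Sᵀ * S) = H := by rw [hSP, cay_icay h2]
  rw [topLog_eq hJ1 hJ2 hm hSJ (by rw [hc]; exact symm_iff.2 hHs)]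
  exact (Phi_congr hc _ _).symm

/-- feasible symplectic matrices give feasible H -/
lemma H_of_feas {m : ℕ} {J γ : Matrix N N ℝ} (hJ1 : Jᵀ = -J) (hJ2 : J * J = -1)
    (hm : Fintype.card N = 2 * m) {x : ℝ} (hx : x ∈ feas m J γ) :
    ∃ (H : Matrix N N ℝ) (hHs : Hᵀ = H), (cay γ - H).PosSemidef ∧ J * H = -(H * J) ∧
      (1 - H).PosDef ∧ x = Phi H (symm_iff.2 hHs) ∧ γ.PosSemidef := by
  obtain ⟨S, hS, hγ, rfl⟩ := hx
  have hP := gram_pd hJ2 hS
  have hγ0 : γ.PosSemidef := by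
    have := hγ.add hP.posSemidef
    rwa [sub_add_cancel] at this
  have hs : (cay (Sᵀ * S))ᵀ = cay (Sᵀ * S) := cay_symm (psd_iff.1 hP.posSemidef).1
  refine ⟨cay (Sᵀ * S), hs, cay_mono hP.posSemidef hγ0 hγ, cay_anti hP.posSemidef
    (sympl_gram hJ2 hS), one_sub_cay_pd hP.posSemidef, ?_, hγ0⟩
  exact topLog_eq hJ1 hJ2 hm hS _

/-- eigenvalue bounds -/
lemma eig_mem {H : Matrix N N ℝ} (hHs : H.IsHermitian) (h1 : (1 - H).PosDef)
    (h2 : (1 + H).PosDef) (j : N) : hHs.eigenvalues j ∈ Set.Ioo (-1 : ℝ) 1 := by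
  obtain ⟨U, hU, hd⟩ := exists_diag hHs
  have hU' : U * Uᵀ = 1 := mul_eq_one_comm.1 hU
  set v : N → ℝ := fun i => U i j with hv
  have hvne : v ≠ 0 := by
    intro h0
    have : (Uᵀ * U) j j = 1 := by rw [hU, Matrix.one_apply_eq]
    rw [Matrix.mul_apply] at this
    have h3 : ∑ k, Uᵀ j k * U k j = 0 := by
      apply Finset.sum_eq_zero
      intro k _
      have : U k j = 0 := congrFun h0 k
      rw [this, mul_zero]
    rw [h3] at this
    exact zero_ne_one this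
  have hvv : v ⬝ᵥ v = 1 := by
    have : (Uᵀ * U) j j = 1 := by rw [hU, Matrix.one_apply_eq]
    rw [Matrix.mul_apply] at this
    exact this
  have hHv : H *ᵥ v = hHs.eigenvalues j • v := by
    have e1 : v = U *ᵥ (Pi.single j 1) := by
      rw [Matrix.mulVec_single_one]; rfl
    have e2 : H * U = U * Matrix.diagonal hHs.eigenvalues := by
      conv_lhs => rw [hd]
      rw [mul_assoc, hU, mul_one]
    rw [e1, Matrix.mulVec_mulVec, e2, ← Matrix.mulVec_mulVec]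
    rw [Matrix.diagonal_mulVec_single, mul_one]
    have : (Pi.single j (hHs.eigenvalues j) : N → ℝ)
        = hHs.eigenvalues j • (Pi.single j (1 : ℝ) : N → ℝ) := by
      rw [← Pi.single_smul]; simp
    rw [this, Matrix.mulVec_smul]
  have q1 := (pd_iff.1 h1).2 v hvne
  have q2 := (pd_iff.1 h2).2 v hvne
  rw [Matrix.sub_mulVec, Matrix.one_mulVec, dotProduct_sub, hHv, dotProduct_smul, hvv] at q1
  rw [Matrix.add_mulVec, Matrix.one_mulVec, dotProduct_add, hHv, dotProduct_smul, hvv] at q2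
  simp only [smul_eq_mul, mul_one] at q1 q2
  exact ⟨by linarith, by linarith⟩

lemma Phi_nonneg {H : Matrix N N ℝ} (hHs : H.IsHermitian) (h1 : (1 - H).PosDef)
    (h2 : (1 + H).PosDef) : 0 ≤ Phi H hHs := by
  unfold Phi
  apply mul_nonneg (by norm_num)
  apply Finset.sum_nonneg
  intro j _
  exact phi_nonneg (abs_lt.2 (eig_mem hHs h1 h2 j))

lemma feas_bdd {m : ℕ} {J γ : Matrix N N ℝ} (hJ1 : Jᵀ = -J) (hJ2 : J * J = -1)
    (hm : Fintype.card N = 2 * m) : BddBelow (feas m J γ) := by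
  refine ⟨0, fun x hx => ?_⟩
  obtain ⟨H, hHs, _, hJ, h1, rfl, _⟩ := H_of_feas hJ1 hJ2 hm hx
  exact Phi_nonneg _ h1 (one_add_pd hJ1 hJ2 h1 hJ)

/-! ### the covariance condition -/

lemma RC.pd {J γ : Matrix N N ℝ} (hJ1 : Jᵀ = -J) (hJ2 : J * J = -1) (h : RC J γ) :
    γ.PosDef := by
  have hpsd : ∀ x, 0 ≤ x ⬝ᵥ (γ *ᵥ x) := by
    intro x
    have := h.2 x 0
    simpa using this
  rw [pd_iff]
  refine ⟨h.1, fun x hx => ?_⟩
  rcases (hpsd x).lt_or_eq with h1 | h1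
  · exact h1
  · exfalso
    have hxx : 0 < x ⬝ᵥ x := by
      rcases (dotProduct_self_eq_zero (v := x)).not.2 hx |> fun h2 =>
        (lt_or_gt_of_ne h2) with h3 | h3
      · exfalso
        have : 0 ≤ x ⬝ᵥ x := Finset.sum_nonneg fun i _ => mul_self_nonneg _
        linarith
      · exact h3
    set q := (J *ᵥ x) ⬝ᵥ (γ *ᵥ (J *ᵥ x)) with hq
    have hq0 : 0 ≤ q := hpsd _
    -- test with y = t J x
    have key : ∀ t : ℝ, 0 ≤ t ^ 2 * q - 2 * t * (x ⬝ᵥ x) := by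
      intro t
      have h3 := h.2 x (t • (J *ᵥ x))
      have e1 : (t • (J *ᵥ x)) ⬝ᵥ (γ *ᵥ (t • (J *ᵥ x))) = t ^ 2 * q := by
        rw [Matrix.mulVec_smul, dotProduct_smul, smul_dotProduct, ← hq]
        simp only [smul_eq_mul]
        ring
      have e2 : x ⬝ᵥ (J *ᵥ (t • (J *ᵥ x))) = -(t * (x ⬝ᵥ x)) := by
        rw [Matrix.mulVec_smul, Matrix.mulVec_mulVec, hJ2, Matrix.neg_mulVec, Matrix.one_mulVec,
          dotProduct_smul, dotProduct_neg]
        simp only [smul_eq_mul]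
        ring
      rw [← h1, zero_add, e1, e2] at h3
      linarith
    have h4 := key ((x ⬝ᵥ x) / (q + 1))
    have hq1 : 0 < q + 1 := by linarith
    have h5 : ((x ⬝ᵥ x) / (q + 1)) ^ 2 * q - 2 * ((x ⬝ᵥ x) / (q + 1)) * (x ⬝ᵥ x)
        = (x ⬝ᵥ x) ^ 2 / (q + 1) * (q / (q + 1) - 2) := by
      field_simp
    rw [h5] at h4
    have h6 : q / (q + 1) < 1 := by rw [div_lt_one hq1]; linarith
    have h7 : 0 < (x ⬝ᵥ x) ^ 2 / (q + 1) := by positivity
    nlinarith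

/-- half of the part of cay γ commuting with J -/
noncomputable def Kpart (J γ : Matrix N N ℝ) : Matrix N N ℝ :=
  (1 / 2 : ℝ) • (cay γ + Jᵀ * cay γ * J)

/-- half of the part of cay γ anticommuting with J -/
noncomputable def Hpart (J γ : Matrix N N ℝ) : Matrix N N ℝ :=
  (1 / 2 : ℝ) • (cay γ - Jᵀ * cay γ * J)

lemma K_add_H (J γ : Matrix N N ℝ) : Hpart J γ + Kpart J γ = cay γ := by
  unfold Kpart Hpart
  rw [← smul_add, sub_add_add_cancel, ← two_smul ℝ (cay γ), smul_smul]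
  norm_num

lemma Hpart_symm {J γ : Matrix N N ℝ} (h : γᵀ = γ) : (Hpart J γ)ᵀ = Hpart J γ := by
  unfold Hpart
  rw [Matrix.transpose_smul, Matrix.transpose_sub, Matrix.transpose_mul, Matrix.transpose_mul,
    Matrix.transpose_transpose, cay_symm h, mul_assoc]

lemma Kpart_symm {J γ : Matrix N N ℝ} (h : γᵀ = γ) : (Kpart J γ)ᵀ = Kpart J γ := by
  unfold Kpart
  rw [Matrix.transpose_smul, Matrix.transpose_add, Matrix.transpose_mul, Matrix.transpose_mul,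
    Matrix.transpose_transpose, cay_symm h, mul_assoc]

lemma Hpart_anti {J : Matrix N N ℝ} (hJ1 : Jᵀ = -J) (hJ2 : J * J = -1) (γ : Matrix N N ℝ) :
    J * Hpart J γ = -(Hpart J γ * J) := by
  unfold Hpart
  rw [mul_smul_comm, smul_mul_assoc, ← smul_neg]
  congr 1
  rw [hJ1, mul_sub, sub_mul]
  have e1 : J * (-J * cay γ * J) = cay γ * J := by
    rw [← mul_assoc, ← mul_assoc, mul_neg, hJ2, neg_neg, one_mul]
  have e2 : -J * cay γ * J * J = J * cay γ := by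
    rw [mul_assoc, hJ2, mul_neg, mul_one, neg_mul, neg_neg]
  rw [e1, e2]
  abel

lemma Kpart_comm {J : Matrix N N ℝ} (hJ1 : Jᵀ = -J) (hJ2 : J * J = -1) (γ : Matrix N N ℝ) :
    Jᵀ * Kpart J γ * J = Kpart J γ := by
  unfold Kpart
  rw [mul_smul_comm, smul_mul_assoc]
  congr 1
  rw [hJ1, mul_add, add_mul]
  have e1 : -J * (-J * cay γ * J) * J = cay γ := by
    have : -J * (-J * cay γ * J) * J = (J * J) * cay γ * (J * J) := by
      simp only [neg_mul, mul_neg, neg_neg, mul_assoc]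
    rw [this, hJ2, neg_mul, one_mul, mul_neg, mul_one, neg_neg]
  rw [e1, add_comm]

/-- a covariance matrix dominates the inverse of its conjugate -/
lemma RC.K_psd {J γ : Matrix N N ℝ} (hJ1 : Jᵀ = -J) (hJ2 : J * J = -1) (h : RC J γ) :
    (Kpart J γ).PosSemidef := by
  have hγ := h.pd hJ1 hJ2
  have hJJ : Jᵀ * J = 1 := by rw [hJ1, neg_mul, hJ2, neg_neg]
  have hJJ' : J * Jᵀ = 1 := by rw [hJ1, mul_neg, hJ2, neg_neg]
  have hJinj : Function.Injective (J.mulVec) := by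
    apply Matrix.mulVec_injective_of_isUnit
    rw [Matrix.isUnit_iff_isUnit_det]
    exact Matrix.isUnit_det_of_right_inverse hJJ'
  -- δ
  set δ := Jᵀ * γ * J with hδ
  have hδpd : δ.PosDef := by
    rw [hδ, ← Matrix.conjTranspose_eq_transpose_of_trivial]
    exact hγ.conjTranspose_mul_mul_same hJinj
  have hge : (δ - γ⁻¹).PosSemidef := by
    rw [psd_iff]
    refine ⟨?_, fun z => ?_⟩
    · rw [Matrix.transpose_sub, Matrix.transpose_nonsing_inv, h.1, (pd_iff.1 hδpd).1]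
    · have h1 := h.2 (γ⁻¹ *ᵥ z) (J *ᵥ z)
      have e1 : γ *ᵥ (γ⁻¹ *ᵥ z) = z := by
        rw [Matrix.mulVec_mulVec, mul_nonsing hγ, Matrix.one_mulVec]
      have e2 : (J *ᵥ z) ⬝ᵥ (γ *ᵥ (J *ᵥ z)) = z ⬝ᵥ (δ *ᵥ z) := by
        rw [hδ, ← Matrix.mulVec_mulVec, ← Matrix.mulVec_mulVec, Matrix.dotProduct_mulVec z,
          Matrix.vecMul_transpose]
      have e3 : J *ᵥ (J *ᵥ z) = -z := by
        rw [Matrix.mulVec_mulVec, hJ2, Matrix.neg_mulVec, Matrix.one_mulVec]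
      rw [e1, e2, e3, dotProduct_neg] at h1
      rw [Matrix.sub_mulVec, dotProduct_sub]
      have e4 : (γ⁻¹ *ᵥ z) ⬝ᵥ z = z ⬝ᵥ (γ⁻¹ *ᵥ z) := dotProduct_comm _ _
      rw [e4] at h1
      linarith
  -- (γ+1)⁻¹ + (δ+1)⁻¹ ≤ 1
  have hγi : (γ⁻¹).PosDef := hγ.inv
  have h1 := inv_anti (add_one_pd hγi.posSemidef) (add_one_pd hδpd.posSemidef) (by
    rw [add_sub_add_right_eq_sub]; exact hge)
  have h2 : (γ⁻¹ + 1)⁻¹ = 1 - (γ + 1)⁻¹ := by
    apply Matrix.inv_eq_right_inv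
    have ha := mul_nonsing (add_one_pd hγ.posSemidef)
    have hb := nonsing_mul hγ
    have e1 : γ⁻¹ + 1 = γ⁻¹ * (γ + 1) := by rw [mul_add, mul_one, hb, add_comm]
    rw [mul_sub, mul_one, e1]
    have e2 : γ⁻¹ * (γ + 1) * (γ + 1)⁻¹ = γ⁻¹ := by rw [mul_assoc, ha, mul_one]
    rw [e2, mul_add, mul_one, hb]
    abel
  rw [h2] at h1
  have hcayδ : Jᵀ * cay γ * J = cay δ := by
    unfold cay
    have e1 : (δ + 1)⁻¹ = Jᵀ * (γ + 1)⁻¹ * J := by
      apply Matrix.inv_eq_right_inv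
      have e2 : δ + 1 = Jᵀ * (γ + 1) * J := by
        rw [hδ, mul_add, mul_one, add_mul, hJJ]
      rw [e2]
      calc Jᵀ * (γ + 1) * J * (Jᵀ * (γ + 1)⁻¹ * J)
          = Jᵀ * (γ + 1) * (J * Jᵀ) * (γ + 1)⁻¹ * J := by simp only [mul_assoc]
        _ = Jᵀ * ((γ + 1) * (γ + 1)⁻¹) * J := by rw [hJJ', mul_one]; simp only [mul_assoc]
        _ = 1 := by rw [mul_nonsing (add_one_pd hγ.posSemidef), mul_one, hJJ]
    rw [e1, mul_sub, mul_one, sub_mul, hJJ, mul_smul_comm, smul_mul_assoc]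
  unfold Kpart
  rw [hcayδ]
  have e : (1 / 2 : ℝ) • (cay γ + cay δ) = 1 - (γ + 1)⁻¹ - (δ + 1)⁻¹ := by
    unfold cay
    rw [show (1 - (2 : ℝ) • (γ + 1)⁻¹ + (1 - (2 : ℝ) • (δ + 1)⁻¹))
      = (2 : ℝ) • ((1 : Matrix N N ℝ) - (γ + 1)⁻¹ - (δ + 1)⁻¹) by
        rw [smul_sub, smul_sub, two_smul ℝ (1 : Matrix N N ℝ)]; abel, smul_smul]
    norm_num
  rw [e]
  exact h1

/-- covariance matrices have feasible points -/
lemma RC.feas_nonempty {m : ℕ} {J γ : Matrix N N ℝ} (hJ1 : Jᵀ = -J) (hJ2 : J * J = -1)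
    (hm : Fintype.card N = 2 * m) (h : RC J γ) : (feas m J γ).Nonempty := by
  refine ⟨_, feas_of_H hJ1 hJ2 hm (h.pd hJ1 hJ2).posSemidef (Hpart_symm h.1) ?_
    (Hpart_anti hJ1 hJ2 γ)⟩
  rw [← K_add_H J γ, add_sub_cancel_left]
  exact h.K_psd hJ1 hJ2

end Pool.Agent.R993.GS
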