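import Mathlib

/-! # Linear algebra for symplectic matrices and the Cayley transform -/

namespace Pool.Agent.R993.GS

open Matrix Finset

variable {N : Type*} [Fintype N] [DecidableEq N]

lemma psd_iff {A : Matrix N N ℝ} :
    A.PosSemidef ↔ Aᵀ = A ∧ ∀ x : N → ℝ, 0 ≤ x ⬝ᵥ (A *ᵥ x) := by
  rw [Matrix.posSemidef_iff_dotProduct_mulVec]
  simp only [Matrix.IsHermitian, Matrix.conjTranspose_eq_transpose_of_trivial, star_trivial]

lemma pd_iff {A : Matrix N N ℝ} :
    A.PosDef ↔ Aᵀ = A ∧ ∀ x : N → ℝ, x ≠ 0 → 0 < x ⬝ᵥ (A *ᵥ x) := by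
  rw [Matrix.posDef_iff_dotProduct_mulVec]
  simp only [Matrix.IsHermitian, Matrix.conjTranspose_eq_transpose_of_trivial, star_trivial]

lemma symm_iff {A : Matrix N N ℝ} : A.IsHermitian ↔ Aᵀ = A := by
  simp only [Matrix.IsHermitian, Matrix.conjTranspose_eq_transpose_of_trivial]

/-- inversion is antitone on positive definite matrices -/
lemma inv_anti {A B : Matrix N N ℝ} (hA : A.PosDef) (hB : B.PosDef)
    (h : (B - A).PosSemidef) : (A⁻¹ - B⁻¹).PosSemidef := by
  rw [psd_iff] at h ⊢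
  have hAs : Aᵀ = A := (pd_iff.1 hA).1
  have hBs : Bᵀ = B := (pd_iff.1 hB).1
  refine ⟨?_, ?_⟩
  · rw [Matrix.transpose_sub, Matrix.transpose_nonsing_inv, Matrix.transpose_nonsing_inv, hAs, hBs]
  · intro v
    have hAu : A * A⁻¹ = 1 := Matrix.mul_nonsing_inv A ((Matrix.isUnit_iff_isUnit_det A).1 hA.isUnit)
    have hBu : B * B⁻¹ = 1 := Matrix.mul_nonsing_inv B ((Matrix.isUnit_iff_isUnit_det B).1 hB.isUnit)
    set a := A⁻¹ *ᵥ v with ha
    set u := B⁻¹ *ᵥ v with hu
    have hAa : A *ᵥ a = v := by rw [ha, Matrix.mulVec_mulVec, hAu, Matrix.one_mulVec]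
    have hBb : B *ᵥ u = v := by rw [hu, Matrix.mulVec_mulVec, hBu, Matrix.one_mulVec]
    have h1 := h.2 u
    rw [Matrix.sub_mulVec, dotProduct_sub, hBb] at h1
    have h2 : 0 ≤ (a - u) ⬝ᵥ (A *ᵥ (a - u)) := (psd_iff.1 hA.posSemidef).2 _
    rw [Matrix.mulVec_sub, hAa, sub_dotProduct, dotProduct_sub, dotProduct_sub] at h2
    have h3 : a ⬝ᵥ (A *ᵥ u) = v ⬝ᵥ u := by
      rw [Matrix.dotProduct_mulVec, ← Matrix.mulVec_transpose, hAs, hAa]
    rw [h3] at h2
    rw [Matrix.sub_mulVec, dotProduct_sub, ← ha, ← hu]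
    have h4 : a ⬝ᵥ v = v ⬝ᵥ a := dotProduct_comm _ _
    have h5 : u ⬝ᵥ v = v ⬝ᵥ u := dotProduct_comm _ _
    linarith

/-- orthogonal diagonalisation -/
lemma exists_diag {A : Matrix N N ℝ} (hA : A.IsHermitian) :
    ∃ U : Matrix N N ℝ, Uᵀ * U = 1 ∧ A = U * Matrix.diagonal hA.eigenvalues * Uᵀ := by
  refine ⟨hA.eigenvectorUnitary, ?_, ?_⟩
  · have := (Matrix.mem_unitaryGroup_iff'.1 hA.eigenvectorUnitary.2)
    rwa [Matrix.star_eq_conjTranspose, Matrix.conjTranspose_eq_transpose_of_trivial] at this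
  · conv_lhs => rw [hA.spectral_theorem]
    rw [Unitary.conjStarAlgAut_apply, Matrix.star_eq_conjTranspose,
      Matrix.conjTranspose_eq_transpose_of_trivial]
    rfl

lemma charpoly_conj {U : Matrix N N ℝ} (hU : Uᵀ * U = 1) (B : Matrix N N ℝ) :
    (U * B * Uᵀ).charpoly = B.charpoly := by
  rw [Matrix.charpoly_mul_comm, ← mul_assoc, hU, one_mul]

/-- spectral sums only depend on a diagonalisation -/
lemma eig_sum {A : Matrix N N ℝ} (hA : A.IsHermitian) {U : Matrix N N ℝ} {d : N → ℝ}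
    (hU : Uᵀ * U = 1) (h : A = U * Matrix.diagonal d * Uᵀ) (f : ℝ → ℝ) :
    ∑ j, f (hA.eigenvalues j) = ∑ j, f (d j) := by
  have h1 := hA.roots_charpoly_eq_eigenvalues
  have h2 : A.charpoly.roots = Multiset.map d Finset.univ.val := by
    rw [h, charpoly_conj hU, Matrix.charpoly_diagonal, Polynomial.roots_prod]
    · simp
    · simp [Finset.prod_ne_zero_iff, Polynomial.X_sub_C_ne_zero]
  rw [h2] at h1
  have h3 := congrArg (fun s => (Multiset.map f s).sum) h1
  simp only [Multiset.map_map] at h3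
  change (Multiset.map (f ∘ d) Finset.univ.val).sum = _ at h3
  have e1 : ∑ j, f (d j) = (Multiset.map (f ∘ d) Finset.univ.val).sum := rfl
  rw [e1, h3]
  rfl

/-- Peierls inequality -/
lemma peierls {A : Matrix N N ℝ} {U W : Matrix N N ℝ} {d : N → ℝ} (hU : Uᵀ * U = 1)
    (hW : Wᵀ * W = 1) (h : A = U * Matrix.diagonal d * Uᵀ) {s : Set ℝ} {f : ℝ → ℝ}
    (hf : ConvexOn ℝ s f) (hd : ∀ k, d k ∈ s) :
    ∑ j, f ((Wᵀ * A * W) j j) ≤ ∑ k, f (d k) := by
  have hU' : U * Uᵀ = 1 := mul_eq_one_comm.1 hU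
  have hW' : W * Wᵀ = 1 := mul_eq_one_comm.1 hW
  set p : N → N → ℝ := fun j k => (Wᵀ * U) j k ^ 2 with hp
  have hrow : ∀ j, ∑ k, p j k = 1 := by
    intro j
    have : ((Wᵀ * U) * (Wᵀ * U)ᵀ) j j = 1 := by
      rw [Matrix.transpose_mul, Matrix.transpose_transpose, Matrix.mul_assoc, ← Matrix.mul_assoc U,
        hU', Matrix.one_mul, hW, Matrix.one_apply_eq]
    rw [Matrix.mul_apply] at this
    rw [← this]
    refine Finset.sum_congr rfl fun k _ => ?_
    rw [hp]; simp only [Matrix.transpose_apply]; ring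
  have hcol : ∀ k, ∑ j, p j k = 1 := by
    intro k
    have : ((Wᵀ * U)ᵀ * (Wᵀ * U)) k k = 1 := by
      rw [Matrix.transpose_mul, Matrix.transpose_transpose, Matrix.mul_assoc, ← Matrix.mul_assoc W,
        hW', Matrix.one_mul, hU, Matrix.one_apply_eq]
    rw [Matrix.mul_apply] at this
    rw [← this]
    refine Finset.sum_congr rfl fun k _ => ?_
    rw [hp]; simp only [Matrix.transpose_apply]; ring
  have hdiag : ∀ j, (Wᵀ * A * W) j j = ∑ k, p j k • d k := by
    intro j
    have e : Wᵀ * A * W = (Wᵀ * U) * Matrix.diagonal d * (Wᵀ * U)ᵀ := by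
      rw [h, Matrix.transpose_mul, Matrix.transpose_transpose]
      simp only [Matrix.mul_assoc]
    rw [e, Matrix.mul_apply]
    refine Finset.sum_congr rfl fun k _ => ?_
    rw [Matrix.mul_diagonal, Matrix.transpose_apply, hp]
    simp only [smul_eq_mul]
    ring
  calc ∑ j, f ((Wᵀ * A * W) j j) ≤ ∑ j, ∑ k, p j k • f (d k) := by
        refine Finset.sum_le_sum fun j _ => ?_
        rw [hdiag]
        exact hf.map_sum_le (fun k _ => by positivity) (hrow j) (fun k _ => hd k)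
    _ = ∑ k, f (d k) := by
        rw [Finset.sum_comm]
        refine Finset.sum_congr rfl fun k _ => ?_
        rw [← Finset.sum_smul, hcol, one_smul]

/-! ### the function log((1+|x|)/(1-|x|)) -/

/-- twice artanh of the absolute value -/
noncomputable def phi (x : ℝ) : ℝ := Real.log ((1 + |x|) / (1 - |x|))

lemma convex_g : ConvexOn ℝ (Set.Ico (0 : ℝ) 1) (fun t => Real.log (1 + t) - Real.log (1 - t)) := by
  have hd : ∀ t ∈ Set.Ico (0 : ℝ) 1, HasDerivAt (fun t => Real.log (1 + t) - Real.log (1 - t))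
      (1 / (1 + t) - (-1) / (1 - t)) t := by
    intro t ht
    have h1 : (1 + t) ≠ 0 := by have := ht.1; positivity
    have h2 : (1 - t) ≠ 0 := by have := ht.2; linarith
    have e1 := ((hasDerivAt_id t).const_add 1).log h1
    have e2 := ((hasDerivAt_id t).const_sub 1).log h2
    exact e1.sub e2
  apply MonotoneOn.convexOn_of_deriv (convex_Ico 0 1)
  · intro t ht
    exact (hd t ht).continuousAt.continuousWithinAt
  · intro t ht
    rw [interior_Ico] at ht
    exact (hd t ⟨ht.1.le, ht.2⟩).differentiableAt.differentiableWithinAt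
  · rw [interior_Ico]
    intro x hx y hy hxy
    rw [(hd x ⟨hx.1.le, hx.2⟩).deriv, (hd y ⟨hy.1.le, hy.2⟩).deriv]
    have hx1 : 0 < 1 - x := by linarith [hx.2]
    have hy1 : 0 < 1 - y := by linarith [hy.2]
    have hx2 : 0 < 1 + x := by linarith [hx.1]
    have hy2 : 0 < 1 + y := by linarith [hy.1]
    have ex : ∀ z : ℝ, 0 < 1 - z → 0 < 1 + z → 1 / (1 + z) - (-1) / (1 - z) = 2 / (1 - z ^ 2) := by
      intro z h1 h2
      have h3 : (1 - z ^ 2) ≠ 0 := by
        have : 1 - z ^ 2 = (1 - z) * (1 + z) := by ring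
        rw [this]; positivity
      field_simp
      ring
    rw [ex x hx1 hx2, ex y hy1 hy2]
    have : 1 - y ^ 2 = (1 - y) * (1 + y) := by ring
    have h3 : 0 < 1 - y ^ 2 := by rw [this]; positivity
    apply div_le_div_of_nonneg_left (by norm_num) h3
    nlinarith [hx.1]

lemma convex_phi : ConvexOn ℝ (Set.Ioo (-1 : ℝ) 1) phi := by
  have himg : (fun x : ℝ => |x|) '' Set.Ioo (-1 : ℝ) 1 = Set.Ico 0 1 := by
    ext t
    constructor
    · rintro ⟨x, hx, rfl⟩
      exact ⟨abs_nonneg x, abs_lt.2 hx⟩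
    · intro ht
      exact ⟨t, ⟨by linarith [ht.1], ht.2⟩, abs_of_nonneg ht.1⟩
  have h1 : ConvexOn ℝ (Set.Ioo (-1 : ℝ) 1) (fun x : ℝ => |x|) := by
    refine ⟨convex_Ioo _ _, ?_⟩
    intro x _ y _ a b ha hb _
    simp only [smul_eq_mul]
    calc |a * x + b * y| ≤ |a * x| + |b * y| := abs_add_le _ _
      _ = a * |x| + b * |y| := by rw [abs_mul, abs_mul, abs_of_nonneg ha, abs_of_nonneg hb]
  have h2 := ConvexOn.comp (g := fun t => Real.log (1 + t) - Real.log (1 - t))
    (by rw [himg]; exact convex_g) h1 (by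
      rw [himg]
      intro a ha b hb hab
      have e1 : Real.log (1 + a) ≤ Real.log (1 + b) :=
        Real.log_le_log (by linarith [ha.1]) (by linarith)
      have e2 : Real.log (1 - b) ≤ Real.log (1 - a) :=
        Real.log_le_log (by linarith [hb.2]) (by linarith)
      simp only
      linarith)
  refine h2.congr ?_
  intro x hx
  have hx' : |x| < 1 := abs_lt.2 hx
  simp only [Function.comp, phi]
  rw [Real.log_div]
  · have := abs_nonneg x; positivity
  · linarith

lemma phi_nonneg {x : ℝ} (hx : |x| < 1) : 0 ≤ phi x := by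
  unfold phi
  apply Real.log_nonneg
  rw [le_div_iff₀ (by linarith)]
  have := abs_nonneg x
  linarith

/-- φ at the Cayley transform of an eigenvalue -/
lemma phi_cayley {l : ℝ} (hl : 0 < l) : phi ((l - 1) / (l + 1)) = |Real.log l| := by
  unfold phi
  rw [abs_div, abs_of_pos (by linarith : 0 < l + 1)]
  rcases le_total 1 l with h | h
  · rw [abs_of_nonneg (by linarith : 0 ≤ l - 1), abs_of_nonneg (Real.log_nonneg h)]
    congr 1
    have : (l + 1) ≠ 0 := by positivity
    field_simp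
    ring
  · rw [abs_of_nonpos (by linarith : l - 1 ≤ 0), abs_of_nonpos (Real.log_nonpos hl.le h),
      ← Real.log_inv]
    congr 1
    have h1 : (l + 1) ≠ 0 := by positivity
    have h2 : l ≠ 0 := hl.ne'
    have h3 : (1 + -(l - 1) / (l + 1)) = 2 / (l + 1) := by field_simp; ring
    have h4 : (1 - -(l - 1) / (l + 1)) = 2 * l / (l + 1) := by field_simp; ring
    rw [h3, h4]
    field_simp

end Pool.Agent.R993.GS
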