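import Pool.Agent.R993.GS.Defs
import Pool.Agent.R993.GS.Gen

/-! # Linking the definitions to the general theory -/

namespace Pool.Agent.R993.GS

open Matrix Finset
open scoped ComplexOrder

lemma sForm_transpose (n : ℕ) : (sForm n)ᵀ = -sForm n := by
  ext ⟨i, a⟩ ⟨j, b⟩
  simp only [sForm, Matrix.transpose_apply, Matrix.of_apply, Matrix.neg_apply]
  by_cases h : i = j
  · subst h
    fin_cases a <;> fin_cases b <;> simp
  · rw [if_neg h, if_neg (Ne.symm h)]
    simp

lemma sForm_sq (n : ℕ) : sForm n * sForm n = -1 := by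
  ext ⟨i, a⟩ ⟨j, b⟩
  rw [Matrix.mul_apply, Fintype.sum_prod_type]
  rw [Finset.sum_eq_single i]
  · simp only [sForm, Matrix.of_apply, if_true, Fin.sum_univ_two, Matrix.neg_apply,
      Matrix.one_apply]
    by_cases h : i = j
    · subst h
      fin_cases a <;> fin_cases b <;> simp
    · simp [h]
  · intro k _ hk
    simp only [sForm, Matrix.of_apply]
    simp [hk.symm]
  · intro h; exact absurd (Finset.mem_univ _) h

lemma card_modes (n : ℕ) : Fintype.card (Fin n × Fin 2) = 2 * n := by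
  simp [mul_comm]

lemma G_eq {n : ℕ} (γ : Mat n) : G γ = sInf (feas n (sForm n) γ) := rfl

lemma IsCov.rc {n : ℕ} {γ : Mat n} (h : IsCov γ) : RC (sForm n) γ := by
  refine ⟨h.1, fun x y => ?_⟩
  have h2 := (Matrix.posSemidef_iff_dotProduct_mulVec.1 h.2).2
    (fun i => (x i : ℂ) + Complex.I * (y i : ℂ))
  have h3 := (Complex.le_def.1 h2).1
  have e : (star (fun i => (x i : ℂ) + Complex.I * (y i : ℂ)) ⬝ᵥ
      (γ.map Complex.ofReal - Complex.I • (sForm n).map Complex.ofReal) *ᵥ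
        (fun i => (x i : ℂ) + Complex.I * (y i : ℂ))).re
      = x ⬝ᵥ (γ *ᵥ x) + y ⬝ᵥ (γ *ᵥ y) + (x ⬝ᵥ (sForm n *ᵥ y) - y ⬝ᵥ (sForm n *ᵥ x)) := by
    simp only [dotProduct, Matrix.mulVec, Finset.mul_sum, Complex.re_sum]
    rw [← Finset.sum_sub_distrib, ← Finset.sum_add_distrib, ← Finset.sum_add_distrib]
    refine Finset.sum_congr rfl fun i _ => ?_
    rw [← Finset.sum_sub_distrib, ← Finset.sum_add_distrib, ← Finset.sum_add_distrib]
    refine Finset.sum_congr rfl fun j _ => ?_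
    simp
    ring
  rw [e] at h3
  have e2 : y ⬝ᵥ (sForm n *ᵥ x) = -(x ⬝ᵥ (sForm n *ᵥ y)) := by
    rw [Matrix.dotProduct_mulVec, ← Matrix.mulVec_transpose, sForm_transpose, Matrix.neg_mulVec,
      neg_dotProduct, dotProduct_comm]
  rw [e2] at h3
  simp only [Complex.zero_re] at h3
  linarith

end Pool.Agent.R993.GS
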