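import Pool.Agent.R993.GS.Cay

/-! # Singular values of symplectic matrices -/

namespace Pool.Agent.R993.GS

open Matrix Finset

variable {N : Type*} [Fintype N] [DecidableEq N]

/-- sum of the logarithms of the m largest singular values -/
noncomputable def topLog (m : ℕ) (S : Matrix N N ℝ) : ℝ :=
  ∑ i ∈ Finset.range m, Real.log ((Matrix.toEuclideanLin S).singularValues i)

/-- a quarter of the sum of φ over the eigenvalues of the symmetric part -/
noncomputable def Phi (H : Matrix N N ℝ) (hH : H.IsHermitian) : ℝ :=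
  (1 / 4) * ∑ j, phi (hH.eigenvalues j)

lemma eigenvalues_congr {E : Type*} [NormedAddCommGroup E] [InnerProductSpace ℝ E]
    [FiniteDimensional ℝ E] {T T' : E →ₗ[ℝ] E} (hT : T.IsSymmetric) (hT' : T'.IsSymmetric)
    {n : ℕ} (hn : Module.finrank ℝ E = n) (h : T = T') :
    hT.eigenvalues hn = hT'.eigenvalues hn := by
  subst h; rfl

lemma sv_sq (S : Matrix N N ℝ) (hP : (Sᵀ * S).IsHermitian) (i : Fin (Fintype.card N)) :
    (Matrix.toEuclideanLin S).singularValues i ^ 2 = hP.eigenvalues₀ i := by
  rw [LinearMap.sq_singularValues_fin _ finrank_euclideanSpace]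
  unfold Matrix.IsHermitian.eigenvalues₀
  have h : (LinearMap.adjoint (Matrix.toEuclideanLin S)) ∘ₗ (Matrix.toEuclideanLin S)
      = Matrix.toEuclideanLin (Sᵀ * S) := by
    rw [← Matrix.toEuclideanLin_conjTranspose_eq_adjoint,
      Matrix.conjTranspose_eq_transpose_of_trivial]
    ext x i
    simp [Matrix.toLpLin_apply, Matrix.mulVec_mulVec]
  exact congrFun (eigenvalues_congr _ _ _ h) i

/-- antitone enumerations are determined by the multiset of their values -/
lemma antitone_eq {m : ℕ} {f g : Fin m → ℝ} (hf : Antitone f) (hg : Antitone g)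
    (h : Multiset.map f Finset.univ.val = Multiset.map g Finset.univ.val) : f = g := by
  have key : ∀ f : Fin m → ℝ, Antitone f →
      (Multiset.map f Finset.univ.val).sort (· ≥ ·) = List.ofFn f := by
    intro f hf
    simp_rw [Fin.univ_val_map, Multiset.coe_sort]
    apply List.mergeSort_of_pairwise
    simp_rw [decide_eq_true_eq, ← List.sortedGE_iff_pairwise]
    exact hf.sortedGE_ofFn
  have h1 := key f hf
  rw [h, key g hg] at h1
  exact (List.ofFn_inj.1 h1).symm

lemma eigenvalues₀_map {A : Matrix N N ℝ} (hA : A.IsHermitian) :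
    Multiset.map hA.eigenvalues₀ Finset.univ.val = Multiset.map hA.eigenvalues Finset.univ.val := by
  have h1 := hA.roots_charpoly_eq_eigenvalues₀
  rw [hA.roots_charpoly_eq_eigenvalues] at h1
  exact h1.symm

lemma sum_eigenvalues₀ {A : Matrix N N ℝ} (hA : A.IsHermitian) (f : ℝ → ℝ) :
    ∑ i, f (hA.eigenvalues₀ i) = ∑ j, f (hA.eigenvalues j) := by
  have h := congrArg (fun s => (Multiset.map f s).sum) (eigenvalues₀_map hA)
  simp only [Multiset.map_map] at h
  exact h

lemma inv_diag {P U : Matrix N N ℝ} {d : N → ℝ} (hU : Uᵀ * U = 1)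
    (h : P = U * Matrix.diagonal d * Uᵀ) (hd : ∀ k, d k ≠ 0) :
    P⁻¹ = U * Matrix.diagonal (fun k => (d k)⁻¹) * Uᵀ := by
  have hU' : U * Uᵀ = 1 := mul_eq_one_comm.1 hU
  apply Matrix.inv_eq_right_inv
  rw [h]
  calc U * Matrix.diagonal d * Uᵀ * (U * Matrix.diagonal (fun k => (d k)⁻¹) * Uᵀ)
      = U * Matrix.diagonal d * (Uᵀ * U) * Matrix.diagonal (fun k => (d k)⁻¹) * Uᵀ := by
        simp only [mul_assoc]
    _ = U * (Matrix.diagonal d * Matrix.diagonal (fun k => (d k)⁻¹)) * Uᵀ := by
        rw [hU, mul_one]; simp only [mul_assoc]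
    _ = 1 := by
        rw [Matrix.diagonal_mul_diagonal]
        have : (fun i => d i * (d i)⁻¹) = fun _ => (1 : ℝ) := by
          funext i; exact mul_inv_cancel₀ (hd i)
        rw [this, Matrix.diagonal_one, mul_one, hU']

/-- the ordered eigenvalues of a positive symplectic matrix come in reciprocal pairs -/
lemma pairing {J : Matrix N N ℝ} (hJ1 : Jᵀ = -J) (hJ2 : J * J = -1) {P : Matrix N N ℝ}
    (hP : P.PosDef) (h : P * J * P = J) (i : Fin (Fintype.card N)) :
    hP.isHermitian.eigenvalues₀ (Fin.rev i) = (hP.isHermitian.eigenvalues₀ i)⁻¹ := by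
  have hJJ : Jᵀ * J = 1 := by rw [hJ1, neg_mul, hJ2, neg_neg]
  have hinv : P⁻¹ = Jᵀ * P * J := by
    apply Matrix.inv_eq_left_inv
    rw [mul_assoc, mul_assoc, ← mul_assoc P, h, hJJ]
  have hpos : ∀ j, 0 < hP.isHermitian.eigenvalues j := fun j => hP.eigenvalues_pos j
  obtain ⟨U, hU, hPd⟩ := exists_diag hP.isHermitian
  have hinvd := inv_diag hU hPd (fun k => (hpos k).ne')
  have hc1 : (P⁻¹).charpoly = P.charpoly := by
    rw [hinv]
    have := charpoly_conj (U := Jᵀ) (by rw [Matrix.transpose_transpose, ← hJJ]; rw [hJ1]; simp) P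
    rwa [Matrix.transpose_transpose] at this
  have hr1 : (P⁻¹).charpoly.roots
      = Multiset.map (fun k => (hP.isHermitian.eigenvalues k)⁻¹) Finset.univ.val := by
    rw [hinvd, charpoly_conj hU, Matrix.charpoly_diagonal, Polynomial.roots_prod]
    · simp
    · simp [Finset.prod_ne_zero_iff, Polynomial.X_sub_C_ne_zero]
  have hr2 : P.charpoly.roots = Multiset.map hP.isHermitian.eigenvalues₀ Finset.univ.val :=
    hP.isHermitian.roots_charpoly_eq_eigenvalues₀
  rw [hc1, hr2] at hr1
  have hpos0 : ∀ i, 0 < hP.isHermitian.eigenvalues₀ i := by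
    intro i
    have h1 : hP.isHermitian.eigenvalues₀ i
        ∈ Multiset.map hP.isHermitian.eigenvalues₀ Finset.univ.val :=
      Multiset.mem_map_of_mem _ (Finset.mem_univ_val i)
    rw [eigenvalues₀_map] at h1
    obtain ⟨j, _, hj⟩ := Multiset.mem_map.1 h1
    rw [← hj]; exact hpos j
  have hr3 : Multiset.map (fun k => (hP.isHermitian.eigenvalues k)⁻¹) Finset.univ.val
      = Multiset.map (fun i => (hP.isHermitian.eigenvalues₀ (Fin.rev i))⁻¹) Finset.univ.val := by
    have e1 : Multiset.map (fun k => (hP.isHermitian.eigenvalues k)⁻¹) Finset.univ.val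
        = Multiset.map (fun x : ℝ => x⁻¹) (Multiset.map hP.isHermitian.eigenvalues
          Finset.univ.val) := by
      rw [Multiset.map_map]; rfl
    have e2 : Multiset.map (fun i => (hP.isHermitian.eigenvalues₀ (Fin.rev i))⁻¹)
        (Finset.univ.val : Multiset (Fin (Fintype.card N)))
        = Multiset.map (fun x : ℝ => x⁻¹) (Multiset.map hP.isHermitian.eigenvalues₀
          (Multiset.map Fin.rev Finset.univ.val)) := by
      rw [Multiset.map_map, Multiset.map_map]; rfl
    have e3 : Multiset.map Fin.rev (Finset.univ.val : Multiset (Fin (Fintype.card N)))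
        = Finset.univ.val := by
      have := congrArg Finset.val (Finset.map_univ_equiv (Fin.revPerm (n := Fintype.card N)))
      rw [Finset.map_val] at this
      exact this
    rw [e1, e2, e3, eigenvalues₀_map]
  rw [hr3] at hr1
  have hanti : Antitone (fun i => (hP.isHermitian.eigenvalues₀ (Fin.rev i))⁻¹) := by
    intro a b hab
    simp only
    apply inv_anti₀ (hpos0 _)
    exact hP.isHermitian.eigenvalues₀_antitone (Fin.rev_le_rev.2 hab)
  have h3 := antitone_eq hP.isHermitian.eigenvalues₀_antitone hanti hr1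
  have h4 := congrFun h3 i
  rw [h4, inv_inv]

/-- the Cayley transform in a diagonalisation -/
lemma cay_diag {P U : Matrix N N ℝ} {d : N → ℝ} (hU : Uᵀ * U = 1)
    (h : P = U * Matrix.diagonal d * Uᵀ) (hd : ∀ k, 0 < d k) :
    cay P = U * Matrix.diagonal (fun k => (d k - 1) / (d k + 1)) * Uᵀ := by
  have hU' : U * Uᵀ = 1 := mul_eq_one_comm.1 hU
  have h1 : P + 1 = U * Matrix.diagonal (fun k => d k + 1) * Uᵀ := by
    have : Matrix.diagonal (fun k => d k + 1) = Matrix.diagonal d + 1 := by
      rw [← Matrix.diagonal_one, Matrix.diagonal_add]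
    rw [this, mul_add, mul_one, add_mul, hU', ← h]
  have h2 := inv_diag hU h1 (fun k => by have := hd k; positivity)
  unfold cay
  rw [h2]
  have h3 : (1 : Matrix N N ℝ) = U * Matrix.diagonal (fun _ => (1 : ℝ)) * Uᵀ := by
    rw [Matrix.diagonal_one, mul_one, hU']
  conv_lhs => rw [h3]
  rw [← smul_mul_assoc, ← mul_smul_comm, ← sub_mul, ← mul_sub]
  congr 2
  ext i j
  by_cases hij : i = j
  · subst hij
    simp only [Matrix.sub_apply, Matrix.diagonal_apply_eq, Matrix.smul_apply, smul_eq_mul]
    have := hd i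
    field_simp
    ring
  · simp [Matrix.diagonal_apply_ne _ hij, Matrix.one_apply_ne hij]

/-- the squeezing of a symplectic matrix -/
theorem topLog_eq {J : Matrix N N ℝ} (hJ1 : Jᵀ = -J) (hJ2 : J * J = -1) {m : ℕ}
    (hm : Fintype.card N = 2 * m) {S : Matrix N N ℝ} (hS : Sᵀ * J * S = J)
    (hH : (cay (Sᵀ * S)).IsHermitian) : topLog m S = Phi (cay (Sᵀ * S)) hH := by
  have hP := gram_pd hJ2 hS
  have hPJ := sympl_gram hJ2 hS
  have hpair := pairing hJ1 hJ2 hP hPJ
  set l := hP.isHermitian.eigenvalues₀ with hl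
  have hpos0 : ∀ i, 0 < l i := by
    intro i
    have h1 : l i ∈ Multiset.map hP.isHermitian.eigenvalues₀ Finset.univ.val :=
      Multiset.mem_map_of_mem _ (Finset.mem_univ_val i)
    rw [eigenvalues₀_map] at h1
    obtain ⟨j, _, hj⟩ := Multiset.mem_map.1 h1
    rw [← hj]; exact hP.eigenvalues_pos j
  -- rewrite topLog
  have h1 : topLog m S = ∑ i : Fin (Fintype.card N), if (i : ℕ) < m then (1 / 2) * Real.log (l i)
      else 0 := by
    unfold topLog
    have hlt : ∀ i ∈ Finset.range m, i < Fintype.card N := by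
      intro i hi; rw [Finset.mem_range] at hi; omega
    have h2 : ∀ i (hi : i < Fintype.card N),
        Real.log ((Matrix.toEuclideanLin S).singularValues i) = (1 / 2) * Real.log (l ⟨i, hi⟩) := by
      intro i hi
      have := sv_sq S hP.isHermitian ⟨i, hi⟩
      rw [← hl] at this
      rw [← this, Real.log_pow]
      push_cast
      ring
    rw [Finset.sum_fin_eq_sum_range]
    have h3 : Finset.range m ⊆ Finset.range (Fintype.card N) := by
      intro i hi; exact Finset.mem_range.2 (hlt i hi)
    rw [← Finset.sum_subset h3]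
    · refine Finset.sum_congr rfl fun i hi => ?_
      rw [dif_pos (hlt i hi), if_pos (Finset.mem_range.1 hi), h2 i (hlt i hi)]
    · intro i hi hni
      rw [dif_pos (Finset.mem_range.1 hi), if_neg (fun h => hni (Finset.mem_range.2 h))]
  -- the sum of absolute values
  have h2 : ∑ i, |Real.log (l i)| = 4 * topLog m S := by
    have hlog : ∀ i, Real.log (l (Fin.rev i)) = - Real.log (l i) := by
      intro i; rw [hpair i, Real.log_inv]
    have hsign : ∀ i : Fin (Fintype.card N), (i : ℕ) < m → 0 ≤ Real.log (l i) := by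
      intro i hi
      have hle : l (Fin.rev i) ≤ l i := by
        apply hP.isHermitian.eigenvalues₀_antitone
        rw [Fin.le_def, Fin.val_rev]
        omega
      have h3 := Real.log_le_log (hpos0 _) hle
      rw [hlog] at h3
      linarith
    have habs : ∀ i : Fin (Fintype.card N), |Real.log (l i)|
        = (if (i : ℕ) < m then Real.log (l i) else 0) +
          (if (Fin.rev i : ℕ) < m then Real.log (l (Fin.rev i)) else 0) := by
      intro i
      by_cases hi : (i : ℕ) < m
      · have : ¬ ((Fin.rev i : ℕ) < m) := by rw [Fin.val_rev]; omega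
        rw [if_pos hi, if_neg this, abs_of_nonneg (hsign i hi), add_zero]
      · have : ((Fin.rev i : ℕ) < m) := by
          rw [Fin.val_rev]
          have := i.2
          omega
        rw [if_neg hi, if_pos this, zero_add, hlog]
        have h4 := hsign _ this
        rw [hlog] at h4
        rw [abs_of_nonpos (by linarith)]
    simp only [habs]
    rw [Finset.sum_add_distrib]
    have e : ∑ i : Fin (Fintype.card N), (if (Fin.rev i : ℕ) < m then Real.log (l (Fin.rev i))
        else 0) = ∑ i : Fin (Fintype.card N), (if (i : ℕ) < m then Real.log (l i) else 0) :=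
      Equiv.sum_comp Fin.revPerm (fun i : Fin (Fintype.card N) =>
        if (i : ℕ) < m then Real.log (l i) else 0)
    rw [e, h1, Finset.mul_sum, ← Finset.sum_add_distrib]
    refine Finset.sum_congr rfl fun i _ => ?_
    split_ifs <;> ring
  -- spectrum of the Cayley transform
  obtain ⟨U, hU, hPd⟩ := exists_diag hP.isHermitian
  have hcd := cay_diag hU hPd (fun k => hP.eigenvalues_pos k)
  have h3 : ∑ j, phi (hH.eigenvalues j) = ∑ i, |Real.log (l i)| := by
    rw [eig_sum hH hU hcd phi]
    have : ∀ k, phi ((hP.isHermitian.eigenvalues k - 1) / (hP.isHermitian.eigenvalues k + 1))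
        = |Real.log (hP.isHermitian.eigenvalues k)| := fun k => phi_cayley (hP.eigenvalues_pos k)
    simp only [this]
    rw [hl]
    exact (sum_eigenvalues₀ hP.isHermitian (fun x => |Real.log x|)).symm
  unfold Phi
  rw [h3, h2]
  ring

end Pool.Agent.R993.GS
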